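import Pool.Agent.Lib.MP_58c1c9_gt.LocalClass
import Mathlib.Analysis.Calculus.InverseFunctionTheorem.Analytic
import Mathlib.Analysis.Calculus.Deriv.MeanValue
import Mathlib.Analysis.Analytic.IsolatedZeros
import Mathlib.Analysis.SpecialFunctions.Complex.Analytic
import Mathlib.Analysis.SpecialFunctions.ExpDeriv
import Mathlib.Analysis.Calculus.FDeriv.Analytic
import Mathlib.Algebra.Order.Ring.Abs

set_option autoImplicit false

/-!
# Two local classes: analytic diffeomorphisms, and quotients of increasing analytic maps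
-/

open Set Filter Topology

namespace Pool.Agent.Lib.MP_58c1c9_gt

/-! ### Strictly increasing analytic germs -/

/-- `a` is analytic at `s` and strictly increasing near `s`. -/
def Inc (a : ℝ → ℝ) (s : ℝ) : Prop := AnalyticAt ℝ a s ∧ ∃ U ∈ 𝓝 s, StrictMonoOn a U

theorem Inc.continuousAt {a : ℝ → ℝ} {s : ℝ} (h : Inc a s) : ContinuousAt a s := h.1.continuousAt

theorem Inc.eventually {a : ℝ → ℝ} {s : ℝ} (h : Inc a s) : ∀ᶠ t in 𝓝 s, Inc a t := by
  obtain ⟨h1, U, hU, hm⟩ := h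
  filter_upwards [h1.eventually_analyticAt, eventually_mem_nhds_iff.mpr hU] with t ht ht'
  exact ⟨ht, U, ht', hm⟩

theorem inc_of_deriv_pos {a : ℝ → ℝ} {s : ℝ} (h : AnalyticAt ℝ a s) (h' : 0 < deriv a s) :
    Inc a s := by
  refine ⟨h, ?_⟩
  have e1 := h.eventually_analyticAt
  have e2 : ∀ᶠ t in 𝓝 s, 0 < deriv a t := h.deriv.continuousAt.eventually (lt_mem_nhds h')
  obtain ⟨ε, hε, hball⟩ := Metric.eventually_nhds_iff.mp (e1.and e2)
  refine ⟨Ioo (s - ε) (s + ε), Ioo_mem_nhds (by linarith) (by linarith), ?_⟩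
  have hb : ∀ t ∈ Ioo (s - ε) (s + ε), AnalyticAt ℝ a t ∧ 0 < deriv a t := by
    intro t ht
    apply hball
    rw [Real.dist_eq, abs_lt]
    constructor <;> linarith [ht.1, ht.2]
  apply strictMonoOn_of_deriv_pos (convex_Ioo _ _)
  · intro t ht
    exact (hb t ht).1.continuousAt.continuousWithinAt
  · intro t ht
    rw [interior_Ioo] at ht
    exact (hb t ht).2

theorem Inc.comp {f g : ℝ → ℝ} {s : ℝ} (hf : Inc f (g s)) (hg : Inc g s) : Inc (f ∘ g) s := by
  obtain ⟨f1, U, hU, fm⟩ := hf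
  obtain ⟨g1, V, hV, gm⟩ := hg
  refine ⟨f1.comp g1, V ∩ g ⁻¹' U, Filter.inter_mem hV (g1.continuousAt hU), ?_⟩
  intro x hx y hy hxy
  exact fm hx.2 hy.2 (gm hx.1 hy.1 hxy)

/-- An increasing analytic germ maps the neighbourhoods of its source onto neighbourhoods. -/
theorem Inc.map_nhds {a : ℝ → ℝ} {s : ℝ} (h : Inc a s) {P : ℝ → Prop}
    (hP : ∀ᶠ t in 𝓝 s, P (a t)) : ∀ᶠ y in 𝓝 (a s), P y := by
  obtain ⟨h1, U, hU, hm⟩ := h
  obtain ⟨ε, hε, hball⟩ := Metric.eventually_nhds_iff.mp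
    ((hP.and h1.eventually_analyticAt).and (Filter.eventually_of_mem hU fun _ => id))
  have hb : ∀ t ∈ Icc (s - ε / 2) (s + ε / 2), (P (a t) ∧ AnalyticAt ℝ a t) ∧ t ∈ U := by
    intro t ht
    apply hball
    rw [Real.dist_eq, abs_lt]
    constructor <;> linarith [ht.1, ht.2]
  have hc : ContinuousOn a (Icc (s - ε / 2) (s + ε / 2)) := fun t ht =>
    (hb t ht).1.2.continuousAt.continuousWithinAt
  have hle : s - ε / 2 ≤ s + ε / 2 := by linarith
  have hsub := intermediate_value_Icc hle hc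
  have hs : s ∈ Icc (s - ε / 2) (s + ε / 2) := ⟨by linarith, by linarith⟩
  have m1 : a (s - ε / 2) < a s :=
    hm (hb _ (left_mem_Icc.mpr hle)).2 (hb s hs).2 (by linarith)
  have m2 : a s < a (s + ε / 2) :=
    hm (hb s hs).2 (hb _ (right_mem_Icc.mpr hle)).2 (by linarith)
  filter_upwards [Icc_mem_nhds m1 m2] with y hy
  obtain ⟨t, ht, rfl⟩ := hsub hy
  exact (hb t ht).1.1

theorem Inc.map_nhdsGT {a : ℝ → ℝ} {s : ℝ} (h : Inc a s) {P : ℝ → Prop}
    (hP : ∀ᶠ t in 𝓝[>] s, P (a t)) : ∀ᶠ y in 𝓝[>] (a s), P y := by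
  rw [eventually_nhdsWithin_iff] at hP ⊢
  apply h.map_nhds
  obtain ⟨-, U, hU, hm⟩ := h
  filter_upwards [hP, hU] with t ht htU hat
  exact ht ((hm.lt_iff_lt (mem_of_mem_nhds hU) htU).mp hat)

theorem Inc.map_nhdsLT {a : ℝ → ℝ} {s : ℝ} (h : Inc a s) {P : ℝ → Prop}
    (hP : ∀ᶠ t in 𝓝[<] s, P (a t)) : ∀ᶠ y in 𝓝[<] (a s), P y := by
  rw [eventually_nhdsWithin_iff] at hP ⊢
  apply h.map_nhds
  obtain ⟨-, U, hU, hm⟩ := h
  filter_upwards [hP, hU] with t ht htU hat
  exact ht ((hm.lt_iff_lt htU (mem_of_mem_nhds hU)).mp hat)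

theorem Inc.tendsto_GT {a : ℝ → ℝ} {s : ℝ} (h : Inc a s) : Tendsto a (𝓝[>] s) (𝓝[>] (a s)) := by
  obtain ⟨h1, U, hU, hm⟩ := h
  apply tendsto_nhdsWithin_of_tendsto_nhds_of_eventually_within
  · exact h1.continuousAt.mono_left nhdsWithin_le_nhds
  · filter_upwards [mem_nhdsWithin_of_mem_nhds hU, self_mem_nhdsWithin] with t ht ht'
    exact hm (mem_of_mem_nhds hU) ht ht'

theorem Inc.tendsto_LT {a : ℝ → ℝ} {s : ℝ} (h : Inc a s) : Tendsto a (𝓝[<] s) (𝓝[<] (a s)) := by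
  obtain ⟨h1, U, hU, hm⟩ := h
  apply tendsto_nhdsWithin_of_tendsto_nhds_of_eventually_within
  · exact h1.continuousAt.mono_left nhdsWithin_le_nhds
  · filter_upwards [mem_nhdsWithin_of_mem_nhds hU, self_mem_nhdsWithin] with t ht ht'
    exact hm ht (mem_of_mem_nhds hU) ht'

/-- One-sided identity principle. -/
theorem analytic_uniq_GT {f g : ℝ → ℝ} {x : ℝ} (hf : AnalyticAt ℝ f x) (hg : AnalyticAt ℝ g x)
    (h : ∀ᶠ y in 𝓝[>] x, f y = g y) : f =ᶠ[𝓝 x] g := by
  apply (hf.frequently_eq_iff_eventually_eq hg).mp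
  exact (h.frequently).filter_mono (nhdsWithin_mono x fun y hy => ne_of_gt hy)

theorem analytic_uniq_LT {f g : ℝ → ℝ} {x : ℝ} (hf : AnalyticAt ℝ f x) (hg : AnalyticAt ℝ g x)
    (h : ∀ᶠ y in 𝓝[<] x, f y = g y) : f =ᶠ[𝓝 x] g := by
  apply (hf.frequently_eq_iff_eventually_eq hg).mp
  exact (h.frequently).filter_mono (nhdsWithin_mono x fun y hy => ne_of_lt hy)

/-- Local analytic inverse of a germ with positive derivative. -/
theorem exists_inverse {f : ℝ → ℝ} {x : ℝ} (hf : AnalyticAt ℝ f x) (h' : 0 < deriv f x) :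
    ∃ g : ℝ → ℝ, (AnalyticAt ℝ g (f x) ∧ 0 < deriv g (f x)) ∧ g (f x) = x ∧
      (∀ᶠ y in 𝓝 x, g (f y) = y) ∧ (∀ᶠ z in 𝓝 (f x), f (g z) = z) := by
  have hne : deriv f x ≠ 0 := h'.ne'
  have hs := hf.hasStrictDerivAt
  refine ⟨hs.localInverse _ _ _ hne, ⟨hf.analyticAt_localInverse hne, ?_⟩, ?_, ?_, ?_⟩
  · have := (hs.to_localInverse hne).hasDerivAt.deriv
    rw [this]
    exact inv_pos.mpr h'
  · exact HasStrictFDerivAt.localInverse_apply_image ..
  · exact HasStrictDerivAt.eventually_left_inverse ..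
  · exact HasStrictDerivAt.eventually_right_inverse ..

/-- Normal form of an increasing analytic germ. -/
theorem Inc.normal_form {b : ℝ → ℝ} {s : ℝ} (h : Inc b s) :
    ∃ (m : ℕ) (σ : ℝ → ℝ), Odd m ∧ AnalyticAt ℝ σ s ∧ σ s = 0 ∧ 0 < deriv σ s ∧
      ∀ᶠ z in 𝓝 s, b z = b s + σ z ^ m := by
  obtain ⟨h1, U, hU, hm⟩ := h
  have hsU := mem_of_mem_nhds hU
  have ha : AnalyticAt ℝ (fun z => b z - b s) s := h1.sub analyticAt_const
  have hgt : ∀ᶠ z in 𝓝[>] s, b s < b z := by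
    filter_upwards [mem_nhdsWithin_of_mem_nhds hU, self_mem_nhdsWithin] with z hz hz'
    exact hm hsU hz hz'
  have hlt : ∀ᶠ z in 𝓝[<] s, b z < b s := by
    filter_upwards [mem_nhdsWithin_of_mem_nhds hU, self_mem_nhdsWithin] with z hz hz'
    exact hm hz hsU hz'
  have hne : ¬ ∀ᶠ z in 𝓝 s, b z - b s = 0 := by
    intro hcon
    obtain ⟨z, hz1, hz2⟩ := (hgt.and (hcon.filter_mono nhdsWithin_le_nhds)).exists
    linarith
  obtain ⟨m, g, hg1, hg2, hg3⟩ := ha.exists_eventuallyEq_pow_smul_nonzero_iff.mpr hne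
  -- `g s > 0`
  have hgpos : 0 < g s := by
    rcases lt_or_gt_of_ne hg2 with hneg | hpos
    · exfalso
      have e1 : ∀ᶠ z in 𝓝 s, g z < 0 := hg1.continuousAt.eventually (gt_mem_nhds hneg)
      obtain ⟨z, ⟨⟨hz1, hz2⟩, hz3⟩, hz4⟩ := (((hgt.and (e1.filter_mono nhdsWithin_le_nhds)).and
        (hg3.filter_mono nhdsWithin_le_nhds)).and
        (self_mem_nhdsWithin : Ioi s ∈ 𝓝[>] s)).exists
      have hzs : 0 < z - s := sub_pos.mpr hz4
      have : (z - s) ^ m • g z < 0 := mul_neg_of_pos_of_neg (pow_pos hzs m) hz2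
      linarith
    · exact hpos
  have egpos : ∀ᶠ z in 𝓝 s, 0 < g z := hg1.continuousAt.eventually (lt_mem_nhds hgpos)
  have hodd : Odd m := by
    by_contra hcon
    rw [Nat.not_odd_iff_even] at hcon
    obtain ⟨z, ⟨hz1, hz2⟩, hz3⟩ := ((hlt.and (egpos.filter_mono nhdsWithin_le_nhds)).and
        (hg3.filter_mono nhdsWithin_le_nhds)).exists
    have : 0 ≤ (z - s) ^ m • g z := mul_nonneg (hcon.pow_nonneg _) hz2.le
    linarith
  have hm0 : m ≠ 0 := by
    rintro rfl
    exact absurd hodd (by decide)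
  have hm0' : (m : ℝ) ≠ 0 := Nat.cast_ne_zero.mpr hm0
  set τ : ℝ → ℝ := fun z => Real.exp (Real.log (g z) / m) with hτ
  have hτa : AnalyticAt ℝ τ s := by
    have := (hg1.log hgpos).mul (analyticAt_const (𝕜 := ℝ) (v := ((m : ℝ)⁻¹)) (x := s))
    have := this.rexp'
    simpa [hτ, div_eq_mul_inv] using this
  have hτpow : ∀ z, 0 < g z → τ z ^ m = g z := by
    intro z hz
    rw [hτ]
    simp only
    rw [← Real.exp_nat_mul, mul_div_cancel₀ _ hm0', Real.exp_log hz]
  refine ⟨m, fun z => (z - s) * τ z, hodd, ?_, by simp, ?_, ?_⟩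
  · exact (analyticAt_id.sub analyticAt_const).mul hτa
  · have hd : HasDerivAt (fun z => (z - s) * τ z) (1 * τ s + (s - s) * deriv τ s) s :=
      ((hasDerivAt_id s).sub_const s).mul hτa.differentiableAt.hasDerivAt
    rw [hd.deriv]
    simp only [one_mul, sub_self, zero_mul, add_zero]
    exact Real.exp_pos _
  · filter_upwards [hg3, egpos] with z hz hz'
    rw [mul_pow, hτpow z hz']
    have : b z - b s = (z - s) ^ m * g z := hz
    linarith

/-- Two increasing analytic germs with the same target have a common refinement. -/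
theorem Inc.refine {a a' : ℝ → ℝ} {s s' : ℝ} (h : Inc a s) (h' : Inc a' s') (e : a s = a' s') :
    ∃ p p' : ℝ → ℝ, Inc p 0 ∧ Inc p' 0 ∧ p 0 = s ∧ p' 0 = s' ∧
      ∀ᶠ r in 𝓝 (0 : ℝ), a (p r) = a' (p' r) := by
  obtain ⟨m, σ, hm, hσ, hσ0, hσ', hb⟩ := h.normal_form
  obtain ⟨m', σ', hm', hσs, hσs0, hσs', hb'⟩ := h'.normal_form
  obtain ⟨ρ, ⟨hρ, hρ'⟩, hρ0, -, hρr⟩ := exists_inverse hσ hσ'
  obtain ⟨ρ', ⟨hρs, hρs'⟩, hρs0, -, hρsr⟩ := exists_inverse hσs hσs'
  rw [hσ0] at hρ hρ' hρ0 hρr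
  rw [hσs0] at hρs hρs' hρs0 hρsr
  have hm0 : m ≠ 0 := by
    rintro rfl
    exact absurd hm (by decide)
  have hm0' : m' ≠ 0 := by
    rintro rfl
    exact absurd hm' (by decide)
  have hpow : ∀ n : ℕ, Odd n → Inc (fun r : ℝ => r ^ n) 0 := fun n hn =>
    ⟨analyticAt_id.pow n, univ, univ_mem, (hn.strictMono_pow).strictMonoOn _⟩
  have hp : Inc (ρ ∘ fun r : ℝ => r ^ m') 0 := by
    apply Inc.comp _ (hpow m' hm')
    rw [zero_pow hm0']
    exact inc_of_deriv_pos hρ hρ'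
  have hp' : Inc (ρ' ∘ fun r : ℝ => r ^ m) 0 := by
    apply Inc.comp _ (hpow m hm)
    rw [zero_pow hm0]
    exact inc_of_deriv_pos hρs hρs'
  have t1 : Tendsto (fun r : ℝ => r ^ m') (𝓝 0) (𝓝 0) := by
    have := (hpow m' hm').continuousAt
    rw [ContinuousAt, zero_pow hm0'] at this
    exact this
  have t2 : Tendsto (fun r : ℝ => r ^ m) (𝓝 0) (𝓝 0) := by
    have := (hpow m hm).continuousAt
    rw [ContinuousAt, zero_pow hm0] at this
    exact this
  have v1 : (ρ ∘ fun r : ℝ => r ^ m') 0 = s := by simp [zero_pow hm0', hρ0]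
  have v2 : (ρ' ∘ fun r : ℝ => r ^ m) 0 = s' := by simp [zero_pow hm0, hρs0]
  refine ⟨_, _, hp, hp', v1, v2, ?_⟩
  have c1 : Tendsto (ρ ∘ fun r : ℝ => r ^ m') (𝓝 0) (𝓝 s) := by
    have := hp.continuousAt
    rw [ContinuousAt, v1] at this
    exact this
  have c2 : Tendsto (ρ' ∘ fun r : ℝ => r ^ m) (𝓝 0) (𝓝 s') := by
    have := hp'.continuousAt
    rw [ContinuousAt, v2] at this
    exact this
  filter_upwards [c1.eventually hb, c2.eventually hb', t1.eventually hρr,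
    t2.eventually hρsr] with r h1 h2 h3 h4
  rw [h1, h2, e]
  simp only [Function.comp_apply] at *
  rw [h3, h4, ← pow_mul, ← pow_mul, mul_comm]

/-! ### The class of analytic local diffeomorphisms -/

/-- Orientation preserving analytic local diffeomorphisms. -/
noncomputable def anClass : LocalClass where
  Adm f x := AnalyticAt ℝ f x ∧ 0 < deriv f x
  congr := by
    rintro f g x ⟨h1, h2⟩ h
    exact ⟨h1.congr h, by rw [← h.deriv_eq]; exact h2⟩
  ev := by
    rintro f x ⟨h1, h2⟩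
    exact h1.eventually_analyticAt.and (h1.deriv.continuousAt.eventually (lt_mem_nhds h2))
  cont := fun h => h.1.continuousAt
  mono := by
    rintro f x ⟨h1, h2⟩
    obtain ⟨-, U, hU, hm⟩ := inc_of_deriv_pos h1 h2
    filter_upwards [mem_nhdsWithin_of_mem_nhds hU, self_mem_nhdsWithin] with y hy hy'
    exact hm (mem_of_mem_nhds hU) hy hy'
  adm_id := fun x => ⟨analyticAt_id, by simp⟩
  comp := by
    rintro f g x ⟨f1, f2⟩ ⟨g1, g2⟩
    refine ⟨f1.comp g1, ?_⟩
    rw [deriv_comp x f1.differentiableAt g1.differentiableAt]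
    exact mul_pos f2 g2
  inv := by
    rintro f x ⟨h1, h2⟩
    obtain ⟨g, hg, -, hg2, hg3⟩ := exists_inverse h1 h2
    exact ⟨g, hg, hg2, hg3⟩
  uniq_left := fun hf hg h => analytic_uniq_LT hf.1 hg.1 h
  uniq_right := fun hf hg h => analytic_uniq_GT hf.1 hg.1 h

/-! ### The class of quotients of increasing analytic germs -/

/-- `f` is, near `x`, of the form `b ∘ a⁻¹` with `a` and `b` increasing and analytic. -/
def PuAdm (f : ℝ → ℝ) (x : ℝ) : Prop :=
  ∃ (a b : ℝ → ℝ) (s : ℝ), Inc a s ∧ Inc b s ∧ a s = x ∧ ∀ᶠ t in 𝓝 s, f (a t) = b t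

/-- Homeomorphisms locally of the form `b ∘ a⁻¹` with `a` and `b` increasing and analytic. -/
noncomputable def puClass : LocalClass where
  Adm := PuAdm
  congr := by
    rintro f g x ⟨a, b, s, ha, hb, rfl, h⟩ hfg
    refine ⟨a, b, s, ha, hb, rfl, ?_⟩
    filter_upwards [h, ha.continuousAt.eventually hfg] with t ht ht'
    rw [← ht', ht]
  ev := by
    rintro f x ⟨a, b, s, ha, hb, rfl, h⟩
    apply ha.map_nhds
    filter_upwards [ha.eventually, hb.eventually, eventually_eventually_nhds.mpr h]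
      with t h1 h2 h3
    exact ⟨a, b, t, h1, h2, rfl, h3⟩
  cont := by
    rintro f x ⟨a, b, s, ha, hb, rfl, h⟩
    intro V hV
    rw [h.self_of_nhds] at hV
    apply ha.map_nhds
    filter_upwards [h, hb.continuousAt hV] with t ht ht'
    show f (a t) ∈ V
    rw [ht]; exact ht'
  mono := by
    rintro f x ⟨a, b, s, ha, hb, rfl, h⟩
    apply ha.map_nhdsGT
    obtain ⟨-, U, hU, hm⟩ := hb
    filter_upwards [h.filter_mono nhdsWithin_le_nhds, mem_nhdsWithin_of_mem_nhds hU,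
      self_mem_nhdsWithin] with t ht htU hts
    rw [ht, h.self_of_nhds]
    exact hm (mem_of_mem_nhds hU) htU hts
  adm_id := fun x => ⟨fun y => y, fun y => y, x,
    inc_of_deriv_pos analyticAt_id (by simp), inc_of_deriv_pos analyticAt_id (by simp), rfl,
    Eventually.of_forall fun _ => rfl⟩
  comp := by
    rintro f g x ⟨a', b', s', ha', hb', hx', h'⟩ ⟨a, b, s, ha, hb, rfl, h⟩
    have e : b s = a' s' := by rw [hx', ← h.self_of_nhds]
    obtain ⟨p, p', hp, hp', hp0, hp0', hpp⟩ := hb.refine ha' e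
    refine ⟨a ∘ p, b' ∘ p', 0, Inc.comp (by rw [hp0]; exact ha) hp,
      Inc.comp (by rw [hp0']; exact hb') hp', by simp [hp0], ?_⟩
    have c1 : Tendsto p (𝓝 0) (𝓝 s) := by
      have := hp.continuousAt
      rwa [ContinuousAt, hp0] at this
    have c2 : Tendsto p' (𝓝 0) (𝓝 s') := by
      have := hp'.continuousAt
      rwa [ContinuousAt, hp0'] at this
    filter_upwards [hpp, c1.eventually h, c2.eventually h'] with r h1 h2 h3
    simp only [Function.comp_apply]
    rw [h2, h1, h3]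
  inv := by
    rintro f x ⟨a, b, s, ha, hb, rfl, h⟩
    obtain ⟨hb1, U, hU, hm⟩ := id hb
    let g : ℝ → ℝ := fun z => a (Function.invFunOn b U z)
    have hg : ∀ t ∈ U, g (b t) = a t := by
      intro t ht
      show a (Function.invFunOn b U (b t)) = a t
      congr 1
      exact hm.injOn (Function.invFunOn_mem ⟨t, ht, rfl⟩) ht (Function.invFunOn_eq ⟨t, ht, rfl⟩)
    have hgU : ∀ᶠ t in 𝓝 s, g (b t) = a t := Filter.eventually_of_mem hU hg
    have hs := h.self_of_nhds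
    refine ⟨g, ⟨b, a, s, hb, ha, hs.symm, hgU⟩, ?_, ?_⟩
    · apply ha.map_nhds
      filter_upwards [h, hgU] with t h1 h2
      rw [h1, h2]
    · rw [hs]
      apply hb.map_nhds
      filter_upwards [h, hgU] with t h1 h2
      rw [h2, h1]
  uniq_left := by
    rintro f g x ⟨a, b, s, ha, hb, rfl, h⟩ ⟨a', b', s', ha', hb', hx', h'⟩ hfg
    obtain ⟨p, p', hp, hp', hp0, hp0', hpp⟩ := ha.refine ha' hx'.symm
    have c1 : Tendsto p (𝓝 0) (𝓝 s) := by
      have := hp.continuousAt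
      rwa [ContinuousAt, hp0] at this
    have c2 : Tendsto p' (𝓝 0) (𝓝 s') := by
      have := hp'.continuousAt
      rwa [ContinuousAt, hp0'] at this
    have hc : Inc (a ∘ p) 0 := Inc.comp (by rw [hp0]; exact ha) hp
    have hc0 : (a ∘ p) 0 = a s := by simp [hp0]
    have e1 : ∀ᶠ r in 𝓝 (0 : ℝ), f (a (p r)) = b (p r) := c1.eventually h
    have e2 : ∀ᶠ r in 𝓝 (0 : ℝ), g (a' (p' r)) = b' (p' r) := c2.eventually h'
    have e3 : (b ∘ p) =ᶠ[𝓝 0] (b' ∘ p') := by
      apply analytic_uniq_LT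
      · exact AnalyticAt.comp (by rw [hp0]; exact hb.1) hp.1
      · exact AnalyticAt.comp (by rw [hp0']; exact hb'.1) hp'.1
      have t := hc.tendsto_LT
      rw [hc0] at t
      filter_upwards [t.eventually hfg, e1.filter_mono nhdsWithin_le_nhds,
        e2.filter_mono nhdsWithin_le_nhds, hpp.filter_mono nhdsWithin_le_nhds] with r h1 h2 h3 h4
      simp only [Function.comp_apply] at *
      rw [← h2, h1, h4, h3]
    rw [EventuallyEq, ← hc0]
    apply hc.map_nhds
    filter_upwards [e1, e2, e3, hpp] with r h1 h2 h3 h4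
    simp only [Function.comp_apply] at *
    rw [h1, h3, ← h2, h4]
  uniq_right := by
    rintro f g x ⟨a, b, s, ha, hb, rfl, h⟩ ⟨a', b', s', ha', hb', hx', h'⟩ hfg
    obtain ⟨p, p', hp, hp', hp0, hp0', hpp⟩ := ha.refine ha' hx'.symm
    have c1 : Tendsto p (𝓝 0) (𝓝 s) := by
      have := hp.continuousAt
      rwa [ContinuousAt, hp0] at this
    have c2 : Tendsto p' (𝓝 0) (𝓝 s') := by
      have := hp'.continuousAt
      rwa [ContinuousAt, hp0'] at this
    have hc : Inc (a ∘ p) 0 := Inc.comp (by rw [hp0]; exact ha) hp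
    have hc0 : (a ∘ p) 0 = a s := by simp [hp0]
    have e1 : ∀ᶠ r in 𝓝 (0 : ℝ), f (a (p r)) = b (p r) := c1.eventually h
    have e2 : ∀ᶠ r in 𝓝 (0 : ℝ), g (a' (p' r)) = b' (p' r) := c2.eventually h'
    have e3 : (b ∘ p) =ᶠ[𝓝 0] (b' ∘ p') := by
      apply analytic_uniq_GT
      · exact AnalyticAt.comp (by rw [hp0]; exact hb.1) hp.1
      · exact AnalyticAt.comp (by rw [hp0']; exact hb'.1) hp'.1
      have t := hc.tendsto_GT
      rw [hc0] at t
      filter_upwards [t.eventually hfg, e1.filter_mono nhdsWithin_le_nhds,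
        e2.filter_mono nhdsWithin_le_nhds, hpp.filter_mono nhdsWithin_le_nhds] with r h1 h2 h3 h4
      simp only [Function.comp_apply] at *
      rw [← h2, h1, h4, h3]
    rw [EventuallyEq, ← hc0]
    apply hc.map_nhds
    filter_upwards [e1, e2, e3, hpp] with r h1 h2 h3 h4
    simp only [Function.comp_apply] at *
    rw [h1, h3, ← h2, h4]

theorem puAdm_of_inc {f : ℝ → ℝ} {x : ℝ} (h : Inc f x) : puClass.Adm f x :=
  ⟨fun y => y, f, x, inc_of_deriv_pos analyticAt_id (by simp), h, rfl,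
    Eventually.of_forall fun _ => rfl⟩

theorem puAdm_of_anAdm {f : ℝ → ℝ} {x : ℝ} (h : anClass.Adm f x) : puClass.Adm f x :=
  puAdm_of_inc (inc_of_deriv_pos h.1 h.2)

/-- The cube map. -/
def cube (x : ℝ) : ℝ := x ^ 3

theorem inc_cube (x : ℝ) : Inc cube x :=
  ⟨analyticAt_id.pow 3, univ, univ_mem,
    ((show Odd 3 by decide).strictMono_pow).strictMonoOn _⟩

theorem deriv_cube (x : ℝ) : deriv cube x = 3 * x ^ 2 := by
  have : deriv (fun y : ℝ => y ^ 3) x = 3 * x ^ 2 := by simp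
  exact this

theorem anAdm_cube {x : ℝ} (hx : x ≠ 0) : anClass.Adm cube x := by
  refine ⟨(inc_cube x).1, ?_⟩
  rw [deriv_cube]
  positivity

/-- The germs of the cube map at `1` and at `-1` cannot be joined inside the analytic class. -/
theorem not_same_cube :
    ¬ (⟨1, cube, anAdm_cube one_ne_zero⟩ : anClass.Pt).Same
      ⟨-1, cube, anAdm_cube (neg_ne_zero.mpr one_ne_zero)⟩ := by
  rintro ⟨k, k1, k2, -⟩
  have h0 : (0 : ℝ) ∈ uIcc (1 : ℝ) (-1) := by
    rw [uIcc_of_ge (by norm_num)]; constructor <;> norm_num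
  have := LocalClass.ident (C := puClass) (f := k) (g := cube) (a := 1) (b := -1)
    (fun z hz => puAdm_of_anAdm (k1 z hz)) (fun z _ => puAdm_of_inc (inc_cube z)) k2 0 h0
  have h2 := (k1 0 h0).2
  rw [this.deriv_eq, deriv_cube] at h2
  norm_num at h2

theorem same_cube :
    (⟨1, cube, puAdm_of_inc (inc_cube 1)⟩ : puClass.Pt).Same
      ⟨-1, cube, puAdm_of_inc (inc_cube (-1))⟩ :=
  ⟨cube, fun z _ => puAdm_of_inc (inc_cube z), EventuallyEq.rfl, EventuallyEq.rfl⟩

theorem anAdm_add_one (x : ℝ) : anClass.Adm (fun y => y + 1) x := by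
  refine ⟨analyticAt_id.add analyticAt_const, ?_⟩
  simp

/-- The translation germ is not in the class of the identity. -/
theorem not_same_add_one :
    ¬ (⟨0, fun y => y + 1, puAdm_of_anAdm (anAdm_add_one 0)⟩ : puClass.Pt).Same
      (LocalClass.Pt.one 0) := by
  intro h
  have := (h.germ_eq rfl).self_of_nhds
  simp [LocalClass.Pt.one] at this

end Pool.Agent.Lib.MP_58c1c9_gt
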