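import Mathlib.Topology.Germ
import Mathlib.Analysis.Analytic.Basic
import Mathlib.Analysis.Calculus.Deriv.Basic
import Mathlib.Data.Finsupp.Basic
import Mathlib.Algebra.BigOperators.Finsupp.Basic

set_option autoImplicit false

/-!
# The groupoid of germs of analytic diffeomorphisms of the line and its classifying space

* `AnGerm` is the groupoid (with object space the line) of germs of orientation preserving
  real-analytic local diffeomorphisms of `ℝ`, with the sheaf (germ) topology.
* `BGamma` is Haefliger's classifying space of this topological groupoid, i.e. the base of the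
  infinite join construction of Milnor (Haefliger, Homotopy and integrability, 1971).
-/

open Filter Topology

namespace Pool.Agent.Lib.MP_58c1c9_gt

/-- A germ of orientation preserving real-analytic local diffeomorphism of `ℝ`: a source point
`src` and the germ at `src` of a function which is analytic at `src` with positive derivative. -/
structure AnGerm where
  /-- the source of the germ -/
  src : ℝ
  /-- the germ itself, as a germ of functions at the source -/
  germ : (𝓝 src).Germ ℝ
  analytic : ∃ f : ℝ → ℝ, AnalyticAt ℝ f src ∧ 0 < deriv f src ∧ germ = (f : (𝓝 src).Germ ℝ)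

namespace AnGerm

/-- The target of a germ. -/
def tgt (γ : AnGerm) : ℝ := γ.germ.value

/-- The sheaf (germ) topology: a basis of open sets is given by the sets of germs at the points of
an open set `U` of a function analytic with positive derivative on `U`. -/
instance : TopologicalSpace AnGerm := TopologicalSpace.generateFrom
  {S | ∃ (U : Set ℝ) (f : ℝ → ℝ), IsOpen U ∧ (∀ x ∈ U, AnalyticAt ℝ f x ∧ 0 < deriv f x) ∧
    S = {γ : AnGerm | γ.src ∈ U ∧ γ.germ = (f : (𝓝 γ.src).Germ ℝ)}}

/-- `γ.IsComp δ ε` says that the germs `γ` and `δ` are composable (the source of `γ` is the target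
of `δ`) and that `ε` is the composite `γ ∘ δ`. -/
def IsComp (γ δ ε : AnGerm) : Prop :=
  γ.src = δ.tgt ∧ ε.src = δ.src ∧ ∃ f g : ℝ → ℝ, γ.germ = (f : (𝓝 γ.src).Germ ℝ) ∧
    δ.germ = (g : (𝓝 δ.src).Germ ℝ) ∧ ε.germ = ((f ∘ g : ℝ → ℝ) : (𝓝 ε.src).Germ ℝ)

end AnGerm

/-- Haefliger's classifying space of the topological groupoid `AnGerm` (Milnor's model): a point
is a finitely supported family `t` of nonnegative numbers with sum one, together with a cocycle
`γ i j` of germs indexed by the pairs of elements of the support of `t`. -/
structure BGamma where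
  /-- the barycentric coordinates -/
  t : ℕ →₀ ℝ
  nonneg : ∀ i, 0 ≤ t i
  sum_eq_one : t.sum (fun _ r => r) = 1
  /-- the cocycle -/
  γ : t.support → t.support → AnGerm
  cocycle : ∀ i j k, (γ i j).IsComp (γ j k) (γ i k)

namespace BGamma

/-- The set where the transition germ `γ i j` is defined and belongs to `W`. -/
def transIn (i j : ℕ) (W : Set AnGerm) : Set BGamma :=
  {b | ∃ (hi : i ∈ b.t.support) (hj : j ∈ b.t.support), b.γ ⟨i, hi⟩ ⟨j, hj⟩ ∈ W}

/-- The topology of the classifying space: the coarsest topology for which the functions `t i` are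
continuous, and the functions `γ i j` are defined on an open set and continuous there. -/
instance : TopologicalSpace BGamma := TopologicalSpace.generateFrom
  ({S | ∃ (i : ℕ) (V : Set ℝ), IsOpen V ∧ S = {b : BGamma | b.t i ∈ V}} ∪
    {S | ∃ (i j : ℕ) (W : Set AnGerm), IsOpen W ∧ S = transIn i j W})

end BGamma

end Pool.Agent.Lib.MP_58c1c9_gt
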