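import Pool.Agent.Lib.MP_58c1c9_gt.Pree
import Mathlib.Topology.Order.IntermediateValue
import Mathlib.Topology.Order.Compact
import Mathlib.Topology.Instances.Real.Lemmas
import Mathlib.Topology.MetricSpace.ProperSpace.Real
import Mathlib.Tactic

set_option autoImplicit false

/-!
# The interval pree of a local class of increasing homeomorphisms with one-sided uniqueness
-/

open Set Filter Topology

namespace Pool.Agent.Lib.MP_58c1c9_gt

/-- A local class of increasing local homeomorphisms of the line: `Adm f x` says that `f` belongs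
to the class near `x`. The class is closed under composition and inversion, and a germ is
determined by its restriction to either side of the point. -/
structure LocalClass where
  Adm : (ℝ → ℝ) → ℝ → Prop
  congr : ∀ {f g : ℝ → ℝ} {x : ℝ}, Adm f x → f =ᶠ[𝓝 x] g → Adm g x
  ev : ∀ {f : ℝ → ℝ} {x : ℝ}, Adm f x → ∀ᶠ y in 𝓝 x, Adm f y
  cont : ∀ {f : ℝ → ℝ} {x : ℝ}, Adm f x → ContinuousAt f x
  mono : ∀ {f : ℝ → ℝ} {x : ℝ}, Adm f x → ∀ᶠ y in 𝓝[>] x, f x < f y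
  adm_id : ∀ x : ℝ, Adm (fun y => y) x
  comp : ∀ {f g : ℝ → ℝ} {x : ℝ}, Adm f (g x) → Adm g x → Adm (f ∘ g) x
  inv : ∀ {f : ℝ → ℝ} {x : ℝ}, Adm f x →
    ∃ g : ℝ → ℝ, Adm g (f x) ∧ (∀ᶠ y in 𝓝 x, g (f y) = y) ∧ (∀ᶠ z in 𝓝 (f x), f (g z) = z)
  uniq_left : ∀ {f g : ℝ → ℝ} {x : ℝ}, Adm f x → Adm g x →
    (∀ᶠ y in 𝓝[<] x, f y = g y) → f =ᶠ[𝓝 x] g
  uniq_right : ∀ {f g : ℝ → ℝ} {x : ℝ}, Adm f x → Adm g x →
    (∀ᶠ y in 𝓝[>] x, f y = g y) → f =ᶠ[𝓝 x] g

namespace LocalClass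

variable (C : LocalClass)

theorem isOpen_eqGerm (f g : ℝ → ℝ) : IsOpen {x | f =ᶠ[𝓝 x] g} := by
  rw [isOpen_iff_mem_nhds]
  intro x hx
  exact eventually_eventually_nhds.mpr hx

variable {C}

theorem ident_le {f g : ℝ → ℝ} {a b : ℝ} (hab : a ≤ b) (hf : ∀ z ∈ Icc a b, C.Adm f z)
    (hg : ∀ z ∈ Icc a b, C.Adm g z) (h : f =ᶠ[𝓝 a] g) : ∀ z ∈ Icc a b, f =ᶠ[𝓝 z] g := by
  by_contra hcon
  push Not at hcon
  set bad : Set ℝ := Icc a b ∩ {x | f =ᶠ[𝓝 x] g}ᶜ with hbad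
  have hne : bad.Nonempty := by
    obtain ⟨z, hz, hz'⟩ := hcon
    exact ⟨z, hz, hz'⟩
  have hcpt : IsCompact bad := isCompact_Icc.inter_right (isOpen_eqGerm f g).isClosed_compl
  have hmem := hcpt.sInf_mem hne
  set m := sInf bad with hm
  obtain ⟨⟨hm1, hm2⟩, hm3⟩ := hmem
  have ham : a < m := by
    rcases lt_or_eq_of_le hm1 with h' | h'
    · exact h'
    · exact absurd (h' ▸ h) hm3
  apply hm3
  apply C.uniq_left (hf m ⟨hm1, hm2⟩) (hg m ⟨hm1, hm2⟩)
  have : Ioo a m ∈ 𝓝[<] m := Ioo_mem_nhdsLT ham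
  filter_upwards [this] with y hy
  by_contra hne'
  have hyb : y ∈ bad := by
    refine ⟨⟨hy.1.le, hy.2.le.trans hm2⟩, fun h' => hne' h'.self_of_nhds⟩
  exact absurd (csInf_le hcpt.bddBelow hyb) (not_le.mpr hy.2)

theorem ident_ge {f g : ℝ → ℝ} {a b : ℝ} (hab : a ≤ b) (hf : ∀ z ∈ Icc a b, C.Adm f z)
    (hg : ∀ z ∈ Icc a b, C.Adm g z) (h : f =ᶠ[𝓝 b] g) : ∀ z ∈ Icc a b, f =ᶠ[𝓝 z] g := by
  by_contra hcon
  push Not at hcon
  set bad : Set ℝ := Icc a b ∩ {x | f =ᶠ[𝓝 x] g}ᶜ with hbad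
  have hne : bad.Nonempty := by
    obtain ⟨z, hz, hz'⟩ := hcon
    exact ⟨z, hz, hz'⟩
  have hcpt : IsCompact bad := isCompact_Icc.inter_right (isOpen_eqGerm f g).isClosed_compl
  have hmem := hcpt.sSup_mem hne
  set m := sSup bad with hm
  obtain ⟨⟨hm1, hm2⟩, hm3⟩ := hmem
  have ham : m < b := by
    rcases lt_or_eq_of_le hm2 with h' | h'
    · exact h'
    · exact absurd (h' ▸ h) hm3
  apply hm3
  apply C.uniq_right (hf m ⟨hm1, hm2⟩) (hg m ⟨hm1, hm2⟩)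
  have : Ioo m b ∈ 𝓝[>] m := Ioo_mem_nhdsGT ham
  filter_upwards [this] with y hy
  by_contra hne'
  have hyb : y ∈ bad := by
    refine ⟨⟨hm1.trans hy.1.le, hy.2.le⟩, fun h' => hne' h'.self_of_nhds⟩
  exact absurd (le_csSup hcpt.bddAbove hyb) (not_le.mpr hy.1)

/-- The identity theorem on a segment. -/
theorem ident {f g : ℝ → ℝ} {a b : ℝ} (hf : ∀ z ∈ uIcc a b, C.Adm f z)
    (hg : ∀ z ∈ uIcc a b, C.Adm g z) (h : f =ᶠ[𝓝 a] g) : ∀ z ∈ uIcc a b, f =ᶠ[𝓝 z] g := by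
  rcases le_total a b with hab | hab
  · rw [uIcc_of_le hab] at *
    exact ident_le hab hf hg h
  · rw [uIcc_of_ge hab] at *
    exact ident_ge hab hf hg h

theorem lt_of_adm {f : ℝ → ℝ} {a b : ℝ} (hab : a < b) (hf : ∀ z ∈ Icc a b, C.Adm f z) :
    f a < f b := by
  have hcont : ContinuousOn f (Icc a b) := fun z hz => (C.cont (hf z hz)).continuousWithinAt
  obtain ⟨c, hc, hmax⟩ := isCompact_Icc.exists_isMaxOn (nonempty_Icc.mpr hab.le) hcont
  have key : ∀ d ∈ Icc a b, d < b → ∃ e ∈ Icc a b, f d < f e := by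
    intro d hd hdb
    have h1 := C.mono (hf d hd)
    have h2 : Ioo d b ∈ 𝓝[>] d := Ioo_mem_nhdsGT hdb
    obtain ⟨e, he1, he2⟩ := (h1.and h2).exists
    exact ⟨e, ⟨hd.1.trans he2.1.le, he2.2.le⟩, he1⟩
  have hcb : c = b := by
    by_contra hne
    obtain ⟨e, he, hlt⟩ := key c hc (lt_of_le_of_ne hc.2 hne)
    exact absurd (hmax he) (not_le.mpr hlt)
  obtain ⟨e, he, hlt⟩ := key a ⟨le_rfl, hab.le⟩ hab
  have := hmax he
  rw [hcb] at this
  exact lt_of_lt_of_le hlt this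

theorem strictMonoOn {f : ℝ → ℝ} {s : Set ℝ} (hs : s.OrdConnected) (hf : ∀ z ∈ s, C.Adm f z) :
    StrictMonoOn f s := by
  intro x hx y hy hxy
  exact lt_of_adm hxy fun z hz => hf z (hs.out hx hy hz)

theorem continuousOn {f : ℝ → ℝ} {s : Set ℝ} (hf : ∀ z ∈ s, C.Adm f z) : ContinuousOn f s :=
  fun z hz => (C.cont (hf z hz)).continuousWithinAt

/-- Thickening of a segment. -/
theorem exists_thick {f : ℝ → ℝ} {a b : ℝ} (hab : a ≤ b) (hf : ∀ z ∈ Icc a b, C.Adm f z) :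
    ∃ ε > 0, ∀ z ∈ Ioo (a - ε) (b + ε), C.Adm f z := by
  obtain ⟨ε₁, h1, h1'⟩ := Metric.eventually_nhds_iff.mp (C.ev (hf a ⟨le_rfl, hab⟩))
  obtain ⟨ε₂, h2, h2'⟩ := Metric.eventually_nhds_iff.mp (C.ev (hf b ⟨hab, le_rfl⟩))
  refine ⟨min ε₁ ε₂, lt_min h1 h2, fun z hz => ?_⟩
  have m1 := min_le_left ε₁ ε₂
  have m2 := min_le_right ε₁ ε₂
  rcases lt_or_ge z a with h | h
  · apply h1'
    rw [Real.dist_eq, abs_lt]
    constructor <;> linarith [hz.1]
  · rcases lt_or_ge b z with h' | h'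
    · apply h2'
      rw [Real.dist_eq, abs_lt]
      constructor <;> linarith [hz.2]
    · exact hf z ⟨h, h'⟩

variable (C)

/-- Representatives of germs of the class. -/
structure Pt where
  x : ℝ
  f : ℝ → ℝ
  adm : C.Adm f x

variable {C}

/-- The target of a germ. -/
def Pt.tgt (p : C.Pt) : ℝ := p.f p.x

/-- Two germs are related if one is obtained from the other by continuation inside the class. -/
def Pt.Same (p q : C.Pt) : Prop :=
  ∃ h : ℝ → ℝ, (∀ z ∈ uIcc p.x q.x, C.Adm h z) ∧ h =ᶠ[𝓝 p.x] p.f ∧ h =ᶠ[𝓝 q.x] q.f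

theorem Pt.Same.refl (p : C.Pt) : p.Same p :=
  ⟨p.f, by intro z hz; rw [uIcc_self, mem_singleton_iff] at hz; rw [hz]; exact p.adm,
    EventuallyEq.rfl, EventuallyEq.rfl⟩

theorem Pt.same_of_eq {p q : C.Pt} (hx : p.x = q.x) (hf : p.f =ᶠ[𝓝 p.x] q.f) : p.Same q :=
  ⟨p.f, by intro z hz; rw [← hx, uIcc_self, mem_singleton_iff] at hz; rw [hz]; exact p.adm,
    EventuallyEq.rfl, by rw [← hx]; exact hf⟩

theorem Pt.Same.symm {p q : C.Pt} (h : p.Same q) : q.Same p := by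
  obtain ⟨h, h1, h2, h3⟩ := h
  exact ⟨h, by rw [uIcc_comm]; exact h1, h3, h2⟩

theorem Pt.Same.germ_eq {p q : C.Pt} (h : p.Same q) (hx : p.x = q.x) : p.f =ᶠ[𝓝 p.x] q.f := by
  obtain ⟨h, h1, h2, h3⟩ := h
  rw [← hx] at h3
  exact h2.symm.trans h3

/-- Gluing two functions that agree near `b`. -/
theorem glue {h k : ℝ → ℝ} {a b c : ℝ} (hab : a ≤ b) (hbc : b ≤ c)
    (hh : ∀ z ∈ Icc a b, C.Adm h z) (hk : ∀ z ∈ Icc b c, C.Adm k z) (e : h =ᶠ[𝓝 b] k) :
    ∃ l : ℝ → ℝ, (∀ z ∈ Icc a c, C.Adm l z) ∧ (∀ z ≤ b, l =ᶠ[𝓝 z] h) ∧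
      (∀ z, b ≤ z → l =ᶠ[𝓝 z] k) := by
  classical
  let l : ℝ → ℝ := fun z => if z ≤ b then h z else k z
  have e1 : ∀ z ≤ b, l =ᶠ[𝓝 z] h := by
    intro z hz
    rcases lt_or_eq_of_le hz with hlt | rfl
    · filter_upwards [Iio_mem_nhds hlt] with w hw
      simp [l, le_of_lt (show w < b from hw)]
    · filter_upwards [e] with w hw
      by_cases hwb : w ≤ z
      · simp [l, hwb]
      · simp [l, hwb, hw]
  have e2 : ∀ z, b ≤ z → l =ᶠ[𝓝 z] k := by
    intro z hz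
    rcases lt_or_eq_of_le hz with hlt | rfl
    · filter_upwards [Ioi_mem_nhds hlt] with w hw
      simp [l, not_le.mpr (show b < w from hw)]
    · filter_upwards [e] with w hw
      by_cases hwb : w ≤ b
      · simp [l, hwb, hw]
      · simp [l, hwb]
  refine ⟨l, ?_, e1, e2⟩
  intro z hz
  rcases le_total z b with h' | h'
  · exact C.congr (hh z ⟨hz.1, h'⟩) (e1 z h').symm
  · exact C.congr (hk z ⟨h', hz.2⟩) (e2 z h').symm

theorem Pt.Same.trans {p q r : C.Pt} (h₁ : p.Same q) (h₂ : q.Same r) : p.Same r := by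
  obtain ⟨h, a1, a2, a3⟩ := h₁
  obtain ⟨k, b1, b2, b3⟩ := h₂
  have e : h =ᶠ[𝓝 q.x] k := a3.trans b2.symm
  -- if `r` lies in the first segment, or `p` in the second, use a single function
  by_cases hr : r.x ∈ uIcc p.x q.x
  · refine ⟨h, fun z hz => a1 z (uIcc_subset_uIcc left_mem_uIcc hr hz), a2, ?_⟩
    have hsub : uIcc q.x r.x ⊆ uIcc p.x q.x := uIcc_subset_uIcc right_mem_uIcc hr
    have := ident (fun z hz => a1 z (hsub hz)) b1 e r.x right_mem_uIcc
    exact this.trans b3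
  by_cases hp : p.x ∈ uIcc q.x r.x
  · have hsub : uIcc q.x p.x ⊆ uIcc q.x r.x := uIcc_subset_uIcc left_mem_uIcc hp
    refine ⟨k, fun z hz => b1 z (uIcc_subset_uIcc hp right_mem_uIcc hz), ?_, b3⟩
    have := ident (a := q.x) (b := p.x) (fun z hz => a1 z (by rw [uIcc_comm]; exact hz))
      (fun z hz => b1 z (hsub hz)) e p.x right_mem_uIcc
    exact this.symm.trans a2
  -- otherwise `q` is between `p` and `r`
  rcases le_total p.x q.x with hpq | hpq
  · have hqr : q.x ≤ r.x := by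
      by_contra hcon
      push Not at hcon
      rcases le_total p.x r.x with h' | h'
      · exact hr (by rw [uIcc_of_le hpq]; exact ⟨h', hcon.le⟩)
      · exact hp (by rw [uIcc_of_ge hcon.le]; exact ⟨h', hpq⟩)
    rw [uIcc_of_le hpq] at a1
    rw [uIcc_of_le hqr] at b1
    obtain ⟨l, l1, l2, l3⟩ := glue hpq hqr a1 b1 e
    refine ⟨l, by rw [uIcc_of_le (hpq.trans hqr)]; exact l1, (l2 _ hpq).trans a2,
      (l3 _ hqr).trans b3⟩
  · have hqr : r.x ≤ q.x := by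
      by_contra hcon
      push Not at hcon
      rcases le_total p.x r.x with h' | h'
      · exact hp (by rw [uIcc_of_le hcon.le]; exact ⟨hpq, h'⟩)
      · exact hr (by rw [uIcc_of_ge hpq]; exact ⟨hcon.le, h'⟩)
    rw [uIcc_of_ge hpq] at a1
    rw [uIcc_of_ge hqr] at b1
    obtain ⟨l, l1, l2, l3⟩ := glue hqr hpq b1 a1 e.symm
    refine ⟨l, by rw [uIcc_of_ge (hqr.trans hpq)]; exact l1, (l3 _ hpq).trans a2,
      (l2 _ hqr).trans b3⟩

theorem Pt.Same.tgt_inj {p q : C.Pt} (h : p.Same q) (ht : p.tgt = q.tgt) : p.x = q.x := by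
  obtain ⟨h, h1, h2, h3⟩ := h
  have hm := strictMonoOn (C := C) ordConnected_uIcc h1
  apply hm.injOn left_mem_uIcc right_mem_uIcc
  rw [h2.self_of_nhds, h3.self_of_nhds]
  exact ht

variable (C)

instance setoid : Setoid C.Pt where
  r := Pt.Same
  iseqv := ⟨Pt.Same.refl, fun h => h.symm, fun h h' => h.trans h'⟩

/-- The set of continuation classes of germs. -/
abbrev Comp : Type := Quotient C.setoid

variable {C}

/-- Composition of germs. -/
def Pt.comp (p q : C.Pt) (h : p.x = q.tgt) : C.Pt where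
  x := q.x
  f := p.f ∘ q.f
  adm := C.comp (by rw [show q.f q.x = p.x from h.symm]; exact p.adm) q.adm

@[simp] theorem Pt.comp_x (p q : C.Pt) (h : p.x = q.tgt) : (p.comp q h).x = q.x := rfl

theorem Pt.comp_tgt (p q : C.Pt) (h : p.x = q.tgt) : (p.comp q h).tgt = p.tgt := by
  show p.f (q.f q.x) = p.f p.x
  rw [h]; rfl

theorem Pt.Same.comp {p p' q q' : C.Pt} (hp : p.Same p') (hq : q.Same q') (h : p.x = q.tgt)
    (h' : p'.x = q'.tgt) : (p.comp q h).Same (p'.comp q' h') := by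
  obtain ⟨k, k1, k2, k3⟩ := hp
  obtain ⟨l, l1, l2, l3⟩ := hq
  have hm := strictMonoOn (C := C) ordConnected_uIcc l1
  have el : l q.x = p.x := by rw [l2.self_of_nhds, h]; rfl
  have er : l q'.x = p'.x := by rw [l3.self_of_nhds, h']; rfl
  refine ⟨k ∘ l, ?_, ?_, ?_⟩
  · intro z hz
    refine C.comp (k1 _ ?_) (l1 z hz)
    rw [← el, ← er]
    rcases le_total q.x q'.x with hle | hle
    · simp only [Pt.comp_x, uIcc_of_le hle] at hz l1 hm
      have u1 := hm.monotoneOn ⟨le_rfl, hle⟩ hz hz.1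
      have u2 := hm.monotoneOn hz ⟨hle, le_rfl⟩ hz.2
      rw [uIcc_of_le (u1.trans u2)]
      exact ⟨u1, u2⟩
    · simp only [Pt.comp_x, uIcc_of_ge hle] at hz l1 hm
      have u1 := hm.monotoneOn ⟨le_rfl, hle⟩ hz hz.1
      have u2 := hm.monotoneOn hz ⟨hle, le_rfl⟩ hz.2
      rw [uIcc_of_ge (u1.trans u2)]
      exact ⟨u1, u2⟩
  · have c1 : Tendsto l (𝓝 q.x) (𝓝 p.x) := by
      have := C.cont (l1 q.x left_mem_uIcc)
      rw [ContinuousAt, el] at this
      exact this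
    show k ∘ l =ᶠ[𝓝 q.x] p.f ∘ q.f
    filter_upwards [c1.eventually k2, l2] with z hz hz'
    simp only [Function.comp_apply]
    rw [hz, hz']
  · have c1 : Tendsto l (𝓝 q'.x) (𝓝 p'.x) := by
      have := C.cont (l1 q'.x right_mem_uIcc)
      rw [ContinuousAt, er] at this
      exact this
    show k ∘ l =ᶠ[𝓝 q'.x] p'.f ∘ q'.f
    filter_upwards [c1.eventually k3, l3] with z hz hz'
    simp only [Function.comp_apply]
    rw [hz, hz']

/-- Inverse of a germ. -/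
noncomputable def Pt.inv (p : C.Pt) : C.Pt where
  x := p.tgt
  f := (C.inv p.adm).choose
  adm := (C.inv p.adm).choose_spec.1

@[simp] theorem Pt.inv_x (p : C.Pt) : p.inv.x = p.tgt := rfl

theorem Pt.inv_left (p : C.Pt) : ∀ᶠ y in 𝓝 p.x, p.inv.f (p.f y) = y :=
  (C.inv p.adm).choose_spec.2.1

theorem Pt.inv_right (p : C.Pt) : ∀ᶠ z in 𝓝 p.tgt, p.f (p.inv.f z) = z :=
  (C.inv p.adm).choose_spec.2.2

@[simp] theorem Pt.inv_tgt (p : C.Pt) : p.inv.tgt = p.x := p.inv_left.self_of_nhds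

theorem Pt.tendsto (p : C.Pt) : Tendsto p.f (𝓝 p.x) (𝓝 p.tgt) := C.cont p.adm

/-- A germ which is a left inverse is the inverse. -/
theorem Pt.inv_unique (p : C.Pt) {g : ℝ → ℝ} (hg : C.Adm g p.tgt)
    (h : ∀ᶠ y in 𝓝 p.x, g (p.f y) = y) : g =ᶠ[𝓝 p.tgt] p.inv.f := by
  have t : Tendsto p.inv.f (𝓝 p.tgt) (𝓝 p.x) := by
    have := p.inv.tendsto
    rwa [Pt.inv_tgt] at this
  filter_upwards [p.inv_right, t.eventually h] with z hz hz'
  rw [hz] at hz'
  exact hz'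

theorem Pt.Same.inv {p q : C.Pt} (h : p.Same q) : p.inv.Same q.inv := by
  -- the inverse of a function on a segment
  have main : ∀ (a b : ℝ) (k : ℝ → ℝ), a ≤ b → (∀ z ∈ Icc a b, C.Adm k z) →
      ∃ l : ℝ → ℝ, (∀ z ∈ Icc (k a) (k b), C.Adm l z) ∧
        (∀ z ∈ Icc a b, ∀ᶠ y in 𝓝 z, l (k y) = y) := by
    intro a b k hab hk
    obtain ⟨ε, hε, hk'⟩ := exists_thick hab hk
    set J := Ioo (a - ε) (b + ε) with hJ
    have hm : StrictMonoOn k J := strictMonoOn (C := C) ordConnected_Ioo hk'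
    have hsub : Icc a b ⊆ J := fun z hz => ⟨by linarith [hz.1], by linarith [hz.2]⟩
    let l : ℝ → ℝ := Function.invFunOn k J
    have hl : ∀ y ∈ J, l (k y) = y := by
      intro y hy
      have : k (l (k y)) = k y := Function.invFunOn_eq ⟨y, hy, rfl⟩
      exact hm.injOn (Function.invFunOn_mem ⟨y, hy, rfl⟩) hy this
    have hl' : ∀ z ∈ Icc a b, ∀ᶠ y in 𝓝 z, l (k y) = y := by
      intro z hz
      filter_upwards [Ioo_mem_nhds (hsub hz).1 (hsub hz).2] with y hy using hl y hy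
    refine ⟨l, ?_, hl'⟩
    intro w hw
    have hcont : ContinuousOn k (Icc a b) := continuousOn (C := C) hk
    obtain ⟨z, hz, rfl⟩ := intermediate_value_Icc hab hcont hw
    let P : C.Pt := ⟨z, k, hk z hz⟩
    refine C.congr (f := P.inv.f) P.inv.adm ?_
    have t : Tendsto P.inv.f (𝓝 P.tgt) (𝓝 z) := by
      have := P.inv.tendsto
      rwa [Pt.inv_tgt] at this
    show P.inv.f =ᶠ[𝓝 P.tgt] l
    filter_upwards [P.inv_right, t.eventually (hl' z hz)] with v hv hv'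
    have : k (P.inv.f v) = v := hv
    rw [this] at hv'
    exact hv'.symm
  obtain ⟨k, k1, k2, k3⟩ := h
  have ep : k p.x = p.tgt := k2.self_of_nhds
  have eq : k q.x = q.tgt := k3.self_of_nhds
  obtain ⟨l, l1, l2⟩ : ∃ l : ℝ → ℝ, (∀ z ∈ uIcc (k p.x) (k q.x), C.Adm l z) ∧
        (∀ z ∈ uIcc p.x q.x, ∀ᶠ y in 𝓝 z, l (k y) = y) := by
    rcases le_total p.x q.x with hle | hle
    · rw [uIcc_of_le hle] at k1 ⊢
      obtain ⟨l, l1, l2⟩ := main p.x q.x k hle k1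
      have hm := strictMonoOn (C := C) ordConnected_Icc k1
      have u := hm.monotoneOn ⟨le_rfl, hle⟩ ⟨hle, le_rfl⟩ hle
      exact ⟨l, by rw [uIcc_of_le u]; exact l1, l2⟩
    · rw [uIcc_of_ge hle] at k1 ⊢
      obtain ⟨l, l1, l2⟩ := main q.x p.x k hle k1
      have hm := strictMonoOn (C := C) ordConnected_Icc k1
      have u := hm.monotoneOn ⟨le_rfl, hle⟩ ⟨hle, le_rfl⟩ hle
      exact ⟨l, by rw [uIcc_of_ge u]; exact l1, l2⟩
  rw [ep, eq] at l1
  refine ⟨l, l1, ?_, ?_⟩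
  · refine p.inv_unique (l1 _ left_mem_uIcc) ?_
    filter_upwards [l2 p.x left_mem_uIcc, k2] with y hy hy'
    rw [← hy']; exact hy
  · refine q.inv_unique (l1 _ right_mem_uIcc) ?_
    filter_upwards [l2 q.x right_mem_uIcc, k3] with y hy hy'
    rw [← hy']; exact hy

theorem Pt.inv_inv_same (p : C.Pt) : p.inv.inv.Same p := by
  refine Pt.same_of_eq (by simp) ?_
  have hx : p.inv.inv.x = p.inv.tgt := rfl
  rw [hx]
  refine (p.inv.inv_unique (g := p.f) (by rw [Pt.inv_tgt]; exact p.adm) ?_).symm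
  exact p.inv_right

/-- The identity germ. -/
def Pt.one (x : ℝ) : C.Pt := ⟨x, fun y => y, C.adm_id x⟩

theorem Pt.one_same (x y : ℝ) : (Pt.one (C := C) x).Same (Pt.one y) :=
  ⟨fun y => y, fun z _ => C.adm_id z, EventuallyEq.rfl, EventuallyEq.rfl⟩

variable (C)

/-- The product relation on continuation classes. -/
def T (a b c : C.Comp) : Prop :=
  ∃ (p q : C.Pt) (h : p.x = q.tgt), (⟦p⟧ : Quotient C.setoid) = a ∧
    (⟦q⟧ : Quotient C.setoid) = b ∧ (⟦p.comp q h⟧ : Quotient C.setoid) = c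

/-- The range of a continuation class. -/
def rng (a : C.Comp) : Set ℝ := {y | ∃ p : C.Pt, (⟦p⟧ : Quotient C.setoid) = a ∧ p.tgt = y}

variable {C}

theorem T_iff {p q : C.Pt} (h : p.x = q.tgt) {c : C.Comp} :
    C.T (⟦p⟧ : Quotient C.setoid) (⟦q⟧ : Quotient C.setoid) c ↔
      (⟦p.comp q h⟧ : Quotient C.setoid) = c := by
  constructor
  · rintro ⟨p', q', h', hp, hq, rfl⟩
    exact Quotient.sound ((Quotient.exact hp).symm.comp (Quotient.exact hq).symm h h')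
  · rintro rfl
    exact ⟨p, q, h, rfl, rfl, rfl⟩

theorem rng_inv {p : C.Pt} {y : ℝ} (hy : y ∈ C.rng (⟦p.inv⟧ : Quotient C.setoid)) :
    ∃ q : C.Pt, (⟦q⟧ : Quotient C.setoid) = (⟦p⟧ : Quotient C.setoid) ∧ q.x = y := by
  obtain ⟨r, hr, rfl⟩ := hy
  exact ⟨r.inv, Quotient.sound
    (((Quotient.exact hr : r.Same p.inv).inv).trans p.inv_inv_same), rfl⟩

variable (C)

/-- The interval pree of a local class. -/
noncomputable def pree : IntervalPree C.Comp where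
  one := (⟦Pt.one 0⟧ : Quotient C.setoid)
  inv := Quotient.map Pt.inv (fun _ _ h => Pt.Same.inv h)
  T := C.T
  I := C.rng
  ordConn := by
    intro a
    constructor
    rintro y₁ ⟨p, hp, rfl⟩ y₂ ⟨q, hq, rfl⟩ y hy
    have hpq : p.Same q := Quotient.exact (hp.trans hq.symm)
    obtain ⟨k, k1, k2, k3⟩ := hpq
    have ep : k p.x = p.tgt := k2.self_of_nhds
    have eq : k q.x = q.tgt := k3.self_of_nhds
    have hy' : y ∈ uIcc (k p.x) (k q.x) := by
      rw [ep, eq, uIcc_of_le (hy.1.trans hy.2)]; exact hy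
    obtain ⟨z, hz, hzy⟩ := intermediate_value_uIcc (continuousOn (C := C) k1) hy'
    refine ⟨⟨z, k, k1 z hz⟩, ?_, hzy⟩
    rw [← hp]
    refine Quotient.sound ⟨k, fun w hw => k1 w ?_, EventuallyEq.rfl, k2⟩
    exact uIcc_subset_uIcc hz left_mem_uIcc hw
  T_fun := by
    rintro a b c c' ⟨p, q, h, rfl, rfl, rfl⟩ h'
    exact (T_iff h).mp h'
  T_def := by
    intro a b
    refine Quotient.inductionOn a fun p => ?_
    refine Quotient.inductionOn b fun q => ?_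
    rintro ⟨y, hy1, ⟨q', hq', rfl⟩⟩
    obtain ⟨p', hp', hx⟩ := rng_inv hy1
    refine ⟨(⟦p'.comp q' hx⟧ : Quotient C.setoid), p', q', hx, hp', hq', rfl⟩
  T_meet := by
    rintro a b c ⟨p, q, h, rfl, rfl, rfl⟩
    refine ⟨q.tgt, ⟨p.inv, rfl, ?_⟩, ⟨q, rfl, rfl⟩⟩
    rw [Pt.inv_tgt, h]
  T_tri := by
    rintro a b c u v w y ⟨α, rfl, hα⟩ ⟨β, rfl, hβ⟩ ⟨ζ, rfl, hζ⟩ hu hv hw
    have h1 : α.inv.x = β.tgt := by rw [Pt.inv_x, hα, hβ]
    have h2 : β.inv.x = ζ.tgt := by rw [Pt.inv_x, hβ, hζ]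
    have h3 : α.inv.x = ζ.tgt := by rw [Pt.inv_x, hα, hζ]
    have hu' := (T_iff h1).mp hu
    have hv' := (T_iff h2).mp hv
    have hw' := (T_iff h3).mp hw
    subst hu' hv' hw'
    have h4 : (α.inv.comp β h1).x = (β.inv.comp ζ h2).tgt := by
      rw [Pt.comp_x, Pt.comp_tgt, Pt.inv_tgt]
    rw [T_iff h4]
    refine Quotient.sound (Pt.same_of_eq rfl ?_)
    show (α.inv.f ∘ β.f) ∘ (β.inv.f ∘ ζ.f) =ᶠ[𝓝 ζ.x] α.inv.f ∘ ζ.f
    have t : Tendsto ζ.f (𝓝 ζ.x) (𝓝 β.tgt) := by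
      have := ζ.tendsto
      rwa [hζ, ← hβ] at this
    filter_upwards [t.eventually β.inv_right] with z hz
    simp only [Function.comp_apply]
    rw [hz]
  inv_inv := by
    intro a
    refine Quotient.inductionOn a fun p => ?_
    exact Quotient.sound p.inv_inv_same
  one_T := by
    intro a
    refine Quotient.inductionOn a fun p => ?_
    refine ⟨Pt.one p.tgt, p, rfl, Quotient.sound (Pt.one_same _ _), rfl, ?_⟩
    exact Quotient.sound (Pt.same_of_eq (q := p) rfl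
      (Eventually.of_forall fun z => rfl))
  T_one := by
    intro a
    refine Quotient.inductionOn a fun p => ?_
    refine ⟨p, Pt.one p.x, rfl, rfl, Quotient.sound (Pt.one_same _ _), ?_⟩
    exact Quotient.sound (Pt.same_of_eq (q := p) rfl
      (Eventually.of_forall fun z => rfl))
  inv_T := by
    intro a
    refine Quotient.inductionOn a fun p => ?_
    refine ⟨p.inv, p, rfl, rfl, rfl, ?_⟩
    refine Quotient.sound (Pt.Same.trans (Pt.same_of_eq (q := Pt.one p.x) rfl ?_)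
      (Pt.one_same _ _))
    exact p.inv_left
  rot := by
    rintro a b c ⟨p, q, h, rfl, rfl, rfl⟩
    refine ⟨p.inv, p.comp q h, by rw [Pt.comp_tgt]; rfl, rfl, rfl, ?_⟩
    refine Quotient.sound (Pt.same_of_eq rfl ?_)
    show p.inv.f ∘ (p.f ∘ q.f) =ᶠ[𝓝 q.x] q.f
    have t : Tendsto q.f (𝓝 q.x) (𝓝 p.x) := by
      have := q.tendsto
      rwa [← h] at this
    filter_upwards [t.eventually p.inv_left] with z hz using hz
  rot' := by
    rintro a b c ⟨p, q, h, rfl, rfl, rfl⟩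
    refine ⟨p.comp q h, q.inv, by rw [Pt.inv_tgt]; rfl, rfl, rfl, ?_⟩
    refine Quotient.sound (Pt.same_of_eq (by rw [Pt.comp_x, Pt.inv_x, h]) ?_)
    show (p.f ∘ q.f) ∘ q.inv.f =ᶠ[𝓝 q.tgt] p.f
    filter_upwards [q.inv_right] with z hz
    simp only [Function.comp_apply]
    rw [hz]

/-- The universal group of the local class. -/
abbrev Grp : Type := C.pree.UGrp

variable {C}

/-- The class of a germ in the universal group. -/
noncomputable def Pt.cl (p : C.Pt) : C.Grp := C.pree.toGrp (⟦p⟧ : Quotient C.setoid)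

theorem Pt.cl_comp (p q : C.Pt) (h : p.x = q.tgt) : (p.comp q h).cl = p.cl * q.cl :=
  (C.pree.toGrp_mul ⟨p, q, h, rfl, rfl, rfl⟩).symm

theorem Pt.cl_one (x : ℝ) : (Pt.one (C := C) x).cl = 1 := by
  have : (Pt.one (C := C) x).cl = (Pt.one (C := C) 0).cl :=
    congrArg C.pree.toGrp (Quotient.sound (Pt.one_same _ _))
  rw [this]
  exact C.pree.toGrp_one

theorem Pt.cl_eq_iff (p q : C.Pt) : p.cl = q.cl ↔ p.Same q := by
  constructor
  · intro h
    exact Quotient.exact (C.pree.toGrp_injective h)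
  · intro h
    exact congrArg C.pree.toGrp (Quotient.sound h)

end LocalClass

end Pool.Agent.Lib.MP_58c1c9_gt
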