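import Pool.Agent.Lib.MP_58c1c9_gt.Defs
import Pool.Agent.Lib.MP_58c1c9_gt.Analytic
import Mathlib.Topology.Homotopy.Lifting
import Mathlib.Topology.Covering.Basic
import Mathlib.Topology.FiberBundle.Basic

set_option autoImplicit false

/-!
# The covering spaces of the classifying space attached to a local class
-/

open Set Filter Topology unitInterval

namespace Pool.Agent.Lib.MP_58c1c9_gt

/-! ### Germs and representatives -/

namespace AnGerm

/-- A germ from a representative. -/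
def ofPt (p : anClass.Pt) : AnGerm where
  src := p.x
  germ := (p.f : (𝓝 p.x).Germ ℝ)
  analytic := ⟨p.f, p.adm.1, p.adm.2, rfl⟩

/-- A representative of a germ. -/
noncomputable def toPt (γ : AnGerm) : anClass.Pt where
  x := γ.src
  f := γ.analytic.choose
  adm := ⟨γ.analytic.choose_spec.1, γ.analytic.choose_spec.2.1⟩

theorem toPt_germ (γ : AnGerm) : γ.germ = (γ.toPt.f : (𝓝 γ.src).Germ ℝ) :=
  γ.analytic.choose_spec.2.2

theorem adm_of_germ {γ : AnGerm} {f : ℝ → ℝ} (h : γ.germ = (f : (𝓝 γ.src).Germ ℝ)) :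
    anClass.Adm f γ.src := by
  refine anClass.congr γ.toPt.adm ?_
  exact Filter.Germ.coe_eq.mp (γ.toPt_germ.symm.trans h)

theorem ext_germ {γ δ : AnGerm} {f g : ℝ → ℝ} (hx : γ.src = δ.src)
    (hf : γ.germ = (f : (𝓝 γ.src).Germ ℝ)) (hg : δ.germ = (g : (𝓝 δ.src).Germ ℝ))
    (h : f =ᶠ[𝓝 γ.src] g) : γ = δ := by
  obtain ⟨x, G, hG⟩ := γ
  obtain ⟨y, H, hH⟩ := δ
  simp only at hx
  subst hx
  simp only at hf hg h
  subst hf hg
  simp only [AnGerm.mk.injEq, heq_eq_eq, true_and]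
  exact Filter.Germ.coe_eq.mpr h

theorem ofPt_toPt (γ : AnGerm) : ofPt γ.toPt = γ :=
  ext_germ (γ := ofPt γ.toPt) (δ := γ) (f := γ.toPt.f) (g := γ.toPt.f) rfl rfl γ.toPt_germ
    EventuallyEq.rfl

theorem ofPt_tgt (p : anClass.Pt) : (ofPt p).tgt = p.tgt := rfl

theorem tgt_eq {γ : AnGerm} {f : ℝ → ℝ} (h : γ.germ = (f : (𝓝 γ.src).Germ ℝ)) :
    γ.tgt = f γ.src := by
  rw [tgt, h]; rfl

theorem isComp_ofPt (p q : anClass.Pt) (h : p.x = q.tgt) :
    (ofPt p).IsComp (ofPt q) (ofPt (p.comp q h)) :=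
  ⟨h, rfl, p.f, q.f, rfl, rfl, rfl⟩

theorem isComp_of {p q r : anClass.Pt} (h : p.x = q.tgt) (hx : r.x = q.x)
    (hr : r.f =ᶠ[𝓝 r.x] p.f ∘ q.f) : (ofPt p).IsComp (ofPt q) (ofPt r) :=
  ⟨h, hx, p.f, q.f, rfl, rfl, Filter.Germ.coe_eq.mpr hr⟩

/-- A basic open set of germs. -/
def basic (U : Set ℝ) (f : ℝ → ℝ) : Set AnGerm :=
  {γ : AnGerm | γ.src ∈ U ∧ γ.germ = (f : (𝓝 γ.src).Germ ℝ)}

theorem isOpen_basic {U : Set ℝ} {f : ℝ → ℝ} (hU : IsOpen U) (hf : ∀ x ∈ U, anClass.Adm f x) :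
    IsOpen (basic U f) :=
  TopologicalSpace.isOpen_generateFrom_of_mem ⟨U, f, hU, hf, rfl⟩

end AnGerm

open AnGerm

/-! ### Cocycles with values in the universal groups -/

section Cocycle

variable (C : LocalClass) (hC : ∀ (f : ℝ → ℝ) (x : ℝ), anClass.Adm f x → C.Adm f x)

/-- An analytic germ seen in a larger class. -/
def lift (p : anClass.Pt) : C.Pt := ⟨p.x, p.f, hC _ _ p.adm⟩

/-- The cocycle with values in the universal group of the class. -/
noncomputable def κ (γ : AnGerm) : C.Grp := (lift C hC γ.toPt).cl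

theorem κ_eq {γ : AnGerm} {f : ℝ → ℝ} (h : γ.germ = (f : (𝓝 γ.src).Germ ℝ)) :
    κ C hC γ = (⟨γ.src, f, hC _ _ (adm_of_germ h)⟩ : C.Pt).cl := by
  rw [κ, LocalClass.Pt.cl_eq_iff]
  exact LocalClass.Pt.same_of_eq rfl (Filter.Germ.coe_eq.mp (γ.toPt_germ.symm.trans h))

theorem κ_ofPt (p : anClass.Pt) : κ C hC (ofPt p) = (lift C hC p).cl :=
  κ_eq C hC (γ := ofPt p) rfl

theorem κ_comp {γ δ ε : AnGerm} (h : γ.IsComp δ ε) : κ C hC ε = κ C hC γ * κ C hC δ := by
  obtain ⟨h1, h2, f, g, hf, hg, hfg⟩ := h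
  rw [κ_eq C hC hf, κ_eq C hC hg, κ_eq C hC hfg]
  have ht : γ.src = (⟨δ.src, g, hC _ _ (adm_of_germ hg)⟩ : C.Pt).tgt := h1.trans (tgt_eq hg)
  rw [← LocalClass.Pt.cl_comp _ _ ht, LocalClass.Pt.cl_eq_iff]
  exact LocalClass.Pt.same_of_eq h2 EventuallyEq.rfl

theorem κ_self {γ : AnGerm} (h : γ.IsComp γ γ) : κ C hC γ = 1 := by
  have := κ_comp C hC h
  exact mul_eq_left.mp this.symm

theorem κ_locConst (γ : AnGerm) : ∃ W : Set AnGerm, IsOpen W ∧ γ ∈ W ∧
    ∀ δ ∈ W, κ C hC δ = κ C hC γ := by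
  have hev := anClass.ev γ.toPt.adm
  obtain ⟨ε, hε, hball⟩ := Metric.eventually_nhds_iff.mp hev
  have hx : γ.toPt.x = γ.src := rfl
  have hb : ∀ y ∈ Ioo (γ.src - ε) (γ.src + ε), anClass.Adm γ.toPt.f y := by
    intro y hy
    apply hball
    rw [Real.dist_eq, abs_lt]
    constructor <;> linarith [hy.1, hy.2]
  refine ⟨basic (Ioo (γ.src - ε) (γ.src + ε)) γ.toPt.f, isOpen_basic isOpen_Ioo hb,
    ⟨⟨by linarith, by linarith⟩, γ.toPt_germ⟩, ?_⟩
  rintro δ ⟨h1, h2⟩
  rw [κ_eq C hC h2, κ_eq C hC γ.toPt_germ, LocalClass.Pt.cl_eq_iff]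
  refine ⟨γ.toPt.f, ?_, EventuallyEq.rfl, EventuallyEq.rfl⟩
  intro z hz
  apply hC
  apply hb
  exact ordConnected_Ioo.uIcc_subset h1 ⟨by linarith, by linarith⟩ hz

theorem isOpen_κ (S : Set C.Grp) : IsOpen {γ : AnGerm | κ C hC γ ∈ S} := by
  rw [isOpen_iff_forall_mem_open]
  intro γ hγ
  obtain ⟨W, hW, hγW, h⟩ := κ_locConst C hC γ
  refine ⟨W, fun δ hδ => ?_, hW, hγW⟩
  show κ C hC δ ∈ S
  rw [h δ hδ]; exact hγ

end Cocycle

/-! ### The classifying space -/

namespace BGamma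

theorem isOpen_coord (i : ℕ) {V : Set ℝ} (hV : IsOpen V) : IsOpen {b : BGamma | b.t i ∈ V} :=
  TopologicalSpace.isOpen_generateFrom_of_mem (Or.inl ⟨i, V, hV, rfl⟩)

theorem isOpen_transIn (i j : ℕ) {W : Set AnGerm} (hW : IsOpen W) : IsOpen (transIn i j W) :=
  TopologicalSpace.isOpen_generateFrom_of_mem (Or.inr ⟨i, j, W, hW, rfl⟩)

theorem continuous_iff {X : Type*} [TopologicalSpace X] {f : X → BGamma} :
    Continuous f ↔ (∀ i, Continuous fun x => (f x).t i) ∧
      ∀ (i j : ℕ) (W : Set AnGerm), IsOpen W → IsOpen (f ⁻¹' transIn i j W) := by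
  rw [continuous_generateFrom_iff]
  constructor
  · intro h
    refine ⟨fun i => ⟨fun V hV => ?_⟩, fun i j W hW => ?_⟩
    · exact h _ (Or.inl ⟨i, V, hV, rfl⟩)
    · exact h _ (Or.inr ⟨i, j, W, hW, rfl⟩)
  · rintro ⟨h1, h2⟩ S (⟨i, V, hV, rfl⟩ | ⟨i, j, W, hW, rfl⟩)
    · exact (h1 i).isOpen_preimage V hV
    · exact h2 i j W hW

/-- The open set where the `i`-th coordinate is nonzero. -/
def star (i : ℕ) : Set BGamma := {b | i ∈ b.t.support}

theorem isOpen_star (i : ℕ) : IsOpen (star i) := by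
  have : star i = {b : BGamma | b.t i ∈ ({0}ᶜ : Set ℝ)} := by
    ext b
    simp [star]
  rw [this]
  exact isOpen_coord i isOpen_compl_singleton

theorem support_nonempty (b : BGamma) : b.t.support.Nonempty := by
  rw [Finset.nonempty_iff_ne_empty]
  intro h
  have := b.sum_eq_one
  rw [Finsupp.support_eq_empty.mp h] at this
  simp at this

/-- Some index in the support. -/
noncomputable def idx (b : BGamma) : ℕ := b.support_nonempty.choose

theorem idx_mem (b : BGamma) : b.idx ∈ b.t.support := b.support_nonempty.choose_spec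

theorem ext' {b c : BGamma} (ht : b.t = c.t)
    (hγ : ∀ (i j : ℕ) (hi : i ∈ b.t.support) (hj : j ∈ b.t.support) (hi' : i ∈ c.t.support)
      (hj' : j ∈ c.t.support), b.γ ⟨i, hi⟩ ⟨j, hj⟩ = c.γ ⟨i, hi'⟩ ⟨j, hj'⟩) : b = c := by
  obtain ⟨t, h1, h2, γ, h3⟩ := b
  obtain ⟨t', h1', h2', γ', h3'⟩ := c
  simp only at ht
  subst ht
  have : γ = γ' := by
    funext i j
    exact hγ i.1 j.1 i.2 j.2 i.2 j.2
  subst this
  rfl

section Bundle

variable (C : LocalClass) (hC : ∀ (f : ℝ → ℝ) (x : ℝ), anClass.Adm f x → C.Adm f x)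

open Classical in
/-- The transition functions of the covering. -/
noncomputable def chg (i j : ℕ) (b : BGamma) (v : C.Grp) : C.Grp :=
  if h : i ∈ b.t.support ∧ j ∈ b.t.support then κ C hC (b.γ ⟨j, h.2⟩ ⟨i, h.1⟩) * v else v

theorem chg_eq {i j : ℕ} {b : BGamma} (hi : i ∈ b.t.support) (hj : j ∈ b.t.support) (v : C.Grp) :
    chg C hC i j b v = κ C hC (b.γ ⟨j, hj⟩ ⟨i, hi⟩) * v := by
  rw [chg, dif_pos ⟨hi, hj⟩]

theorem chg_self {i : ℕ} {b : BGamma} (hi : i ∈ b.t.support) (v : C.Grp) :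
    chg C hC i i b v = v := by
  rw [chg_eq C hC hi hi, κ_self C hC (b.cocycle _ _ _), one_mul]

theorem chg_comp {i j k : ℕ} {b : BGamma} (hi : i ∈ b.t.support) (hj : j ∈ b.t.support)
    (hk : k ∈ b.t.support) (v : C.Grp) :
    chg C hC j k b (chg C hC i j b v) = chg C hC i k b v := by
  rw [chg_eq C hC hi hj, chg_eq C hC hj hk, chg_eq C hC hi hk, ← mul_assoc,
    ← κ_comp C hC (b.cocycle ⟨k, hk⟩ ⟨j, hj⟩ ⟨i, hi⟩)]

/-- The discrete topology on the universal group. -/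
local instance instTop : TopologicalSpace C.Grp := ⊥

local instance instDisc : DiscreteTopology C.Grp := ⟨rfl⟩

/-- The covering of the classifying space defined by a local class. -/
noncomputable def core : FiberBundleCore ℕ BGamma C.Grp where
  baseSet := star
  isOpen_baseSet := isOpen_star
  indexAt := idx
  mem_baseSet_at := idx_mem
  coordChange := chg C hC
  coordChange_self i b hb v := chg_self C hC hb v
  continuousOn_coordChange i j := by
    rintro ⟨b, v⟩ ⟨⟨hi, hj⟩, -⟩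
    apply ContinuousAt.continuousWithinAt
    have hopen : IsOpen (transIn j i {γ | κ C hC γ ∈ ({κ C hC (b.γ ⟨j, hj⟩ ⟨i, hi⟩)} : Set _)}
        ×ˢ ({v} : Set C.Grp)) :=
      (isOpen_transIn j i (isOpen_κ C hC _)).prod (isOpen_discrete _)
    have hmem : (b, v) ∈ (transIn j i {γ | κ C hC γ ∈ ({κ C hC (b.γ ⟨j, hj⟩ ⟨i, hi⟩)} : Set _)}
        ×ˢ ({v} : Set C.Grp)) := ⟨⟨hj, hi, rfl⟩, rfl⟩
    have hev : ∀ᶠ p in 𝓝 (b, v), chg C hC i j p.1 p.2 = chg C hC i j b v := by
      filter_upwards [hopen.mem_nhds hmem]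
      rintro ⟨c, w⟩ ⟨⟨hj', hi', hc⟩, hw⟩
      simp only [mem_singleton_iff] at hw
      subst hw
      simp only
      rw [chg_eq C hC hi hj, chg_eq C hC hi' hj']
      congr 1
    exact (continuousAt_const.congr (hev.mono fun p hp => hp.symm) :
      ContinuousAt (fun p : BGamma × C.Grp => chg C hC i j p.1 p.2) (b, v))
  coordChange_comp i j k b hb v := chg_comp C hC hb.1.1 hb.1.2 hb.2 v

theorem cov : IsCoveringMap (core C hC).proj :=
  FiberBundle.isCoveringMap (F := C.Grp) (E := (core C hC).Fiber)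

/-- The point of the covering over `b` with `i`-th coordinate `v`. -/
noncomputable def elt (i : ℕ) (b : BGamma) (v : C.Grp) : (core C hC).TotalSpace :=
  ⟨b, chg C hC i b.idx b v⟩

theorem elt_change {i j : ℕ} {b : BGamma} (hi : i ∈ b.t.support) (hj : j ∈ b.t.support)
    (v : C.Grp) : elt C hC i b v = elt C hC j b (κ C hC (b.γ ⟨j, hj⟩ ⟨i, hi⟩) * v) := by
  rw [← chg_eq C hC hi hj, elt, elt, chg_comp C hC hi hj b.idx_mem]

theorem elt_injective {i : ℕ} {b : BGamma} (hi : i ∈ b.t.support) {v w : C.Grp}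
    (h : elt C hC i b v = elt C hC i b w) : v = w := by
  have h' : chg C hC i b.idx b v = chg C hC i b.idx b w := by
    have := Bundle.TotalSpace.mk_inj.mp h
    exact this
  rw [chg_eq C hC hi b.idx_mem, chg_eq C hC hi b.idx_mem] at h'
  exact mul_left_cancel h'

theorem exists_elt {i : ℕ} {b : BGamma} (hi : i ∈ b.t.support)
    (e : (core C hC).proj ⁻¹' {b}) : ∃ v, (e : (core C hC).TotalSpace) = elt C hC i b v := by
  obtain ⟨⟨c, w⟩, hc⟩ := e
  have : c = b := hc
  subst this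
  have key : ∀ u : C.Grp, chg C hC i c.idx c (chg C hC c.idx i c u) = u := fun u => by
    rw [chg_comp C hC c.idx_mem hi c.idx_mem, chg_self C hC c.idx_mem]
  exact ⟨chg C hC c.idx i c w,
    congrArg (Bundle.TotalSpace.mk (F := C.Grp) (E := (core C hC).Fiber) c) (key w).symm⟩

/-- The point of the fibre with `i`-th coordinate `v`. -/
noncomputable def felt (i : ℕ) (b : BGamma) (v : C.Grp) : (core C hC).proj ⁻¹' {b} :=
  ⟨elt C hC i b v, rfl⟩

/-- Monodromy along a path contained in a chart. -/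
theorem mono_chart {i : ℕ} {b c : BGamma} (p : Path b c) (hp : ∀ s, p s ∈ star i) (v : C.Grp) :
    (cov C hC).monodromy (Path.Homotopic.Quotient.mk p) (felt C hC i b v) = felt C hC i c v := by
  have hcont : Continuous fun s : I => elt C hC i (p s) v := by
    have h1 := ((core C hC).localTriv i).continuousOn_invFun
    have h2 : Continuous fun s : I => ((p s, v) : BGamma × C.Grp) :=
      p.continuous.prodMk continuous_const
    have h3 := h1.comp_continuous h2 (fun s => by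
      rw [((core C hC).localTriv i).target_eq]
      exact ⟨hp s, mem_univ _⟩)
    exact h3
  let Γ : Path (elt C hC i b v) (elt C hC i c v) :=
    { toFun := fun s => elt C hC i (p s) v
      continuous_toFun := hcont
      source' := by simp
      target' := by simp }
  refine (cov C hC).monodromy_eq_of_map_eq (γ := Path.Homotopic.Quotient.mk p)
    (ex := felt C hC i b v) (ey := felt C hC i c v) (Path.Homotopic.Quotient.mk Γ) ?_
  rfl

end Bundle

end BGamma

end Pool.Agent.Lib.MP_58c1c9_gt
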