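import Pool.Agent.Lib.MP_58c1c9_gt.Monodromy

set_option autoImplicit false

/-!
# Paths and loops in the classifying space
-/

open Set Filter Topology unitInterval

namespace Pool.Agent.Lib.MP_58c1c9_gt

open AnGerm LocalClass

namespace BGamma

/-! ### Points -/

/-- Changing the barycentric coordinates of a point inside its simplex. -/
def reweight (b : BGamma) (t : ℕ →₀ ℝ) (h0 : ∀ i, 0 ≤ t i) (h1 : t.sum (fun _ r => r) = 1)
    (hs : t.support ⊆ b.t.support) : BGamma where
  t := t
  nonneg := h0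
  sum_eq_one := h1
  γ i j := b.γ ⟨i.1, hs i.2⟩ ⟨j.1, hs j.2⟩
  cocycle _ _ _ := b.cocycle _ _ _

theorem one_isComp (x : ℝ) :
    (ofPt (Pt.one x)).IsComp (ofPt (Pt.one x)) (ofPt (Pt.one x)) :=
  isComp_of rfl rfl EventuallyEq.rfl

theorem single_sum (i : ℕ) : (Finsupp.single i (1 : ℝ)).sum (fun _ r => r) = 1 := by
  rw [Finsupp.sum_single_index rfl]

theorem single_nonneg (i : ℕ) (j : ℕ) : 0 ≤ Finsupp.single i (1 : ℝ) j := by
  classical
  rw [Finsupp.single_apply]
  split_ifs <;> norm_num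

/-- The vertex with index `i` at the point `x`. -/
noncomputable def vert (i : ℕ) (x : ℝ) : BGamma where
  t := Finsupp.single i 1
  nonneg := single_nonneg i
  sum_eq_one := single_sum i
  γ _ _ := ofPt (Pt.one x)
  cocycle _ _ _ := one_isComp x

theorem mem_vert (i : ℕ) (x : ℝ) : i ∈ (vert i x).t.support := by
  simp [vert]

theorem mem_vert_iff {i k : ℕ} {x : ℝ} : k ∈ (vert i x).t.support ↔ k = i := by
  classical
  show k ∈ (Finsupp.single i (1 : ℝ)).support ↔ k = i
  rw [Finsupp.support_single _ one_ne_zero, Finset.mem_singleton]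

/-- The germs `γ i i` are identity germs. -/
theorem diag_eq_one {γ : AnGerm} (h : γ.IsComp γ γ) : γ = ofPt (Pt.one γ.src) := by
  obtain ⟨h1, -, f, g, hf, hg, hfg⟩ := h
  set p := γ.toPt with hp
  have e1 : f =ᶠ[𝓝 γ.src] p.f := Filter.Germ.coe_eq.mp (hf.symm.trans γ.toPt_germ)
  have e2 : g =ᶠ[𝓝 γ.src] p.f := Filter.Germ.coe_eq.mp (hg.symm.trans γ.toPt_germ)
  have e3 : f ∘ g =ᶠ[𝓝 γ.src] p.f := Filter.Germ.coe_eq.mp (hfg.symm.trans γ.toPt_germ)
  have ht : p.tgt = γ.src := by
    have := tgt_eq γ.toPt_germ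
    rw [h1]; exact this.symm
  have hx : p.x = γ.src := rfl
  have c : Tendsto p.f (𝓝 γ.src) (𝓝 γ.src) := by
    have := p.tendsto
    rwa [ht, hx] at this
  have inv1 : ∀ᶠ y in 𝓝 γ.src, p.inv.f (p.f y) = y := p.inv_left
  refine ext_germ (f := p.f) (g := fun y => y) rfl γ.toPt_germ rfl ?_
  filter_upwards [e2, e3, c.eventually e1, inv1, c.eventually inv1] with y h2 h3 h4 h5 h6
  simp only [Function.comp_apply] at h3
  rw [h2, h4] at h3
  rw [h3] at h6
  rw [h5] at h6
  exact h6.symm

theorem reweight_single {b : BGamma} {i : ℕ} (hi : i ∈ b.t.support)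
    (hs : (Finsupp.single i (1 : ℝ)).support ⊆ b.t.support) :
    reweight b (Finsupp.single i 1) (single_nonneg i) (single_sum i) hs =
      vert i (b.γ ⟨i, hi⟩ ⟨i, hi⟩).src := by
  refine ext' rfl ?_
  intro k l hk hl hk' hl'
  have ek := mem_vert_iff.mp hk'
  have el := mem_vert_iff.mp hl'
  subst ek
  subst el
  exact diag_eq_one (b.cocycle _ _ _)

/-- The point of the simplex defined by a family of germs with the same source. -/
noncomputable def mkPt (t : ℕ →₀ ℝ) (h0 : ∀ i, 0 ≤ t i) (h1 : t.sum (fun _ r => r) = 1)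
    (z : ℝ) (α : ℕ → anClass.Pt) (hα : ∀ i, (α i).x = z) : BGamma where
  t := t
  nonneg := h0
  sum_eq_one := h1
  γ i j := ofPt ((α i).comp (α j).inv (by rw [Pt.inv_tgt, hα, hα]))
  cocycle := by
    intro i j k
    refine isComp_of ?_ rfl ?_
    · rw [Pt.comp_x, Pt.comp_tgt]; rfl
    · show (α i).f ∘ (α k).inv.f =ᶠ[𝓝 (α k).tgt]
        ((α i).f ∘ (α j).inv.f) ∘ ((α j).f ∘ (α k).inv.f)
      have c : Tendsto (α k).inv.f (𝓝 (α k).tgt) (𝓝 (α j).x) := by
        have := (α k).inv.tendsto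
        rwa [Pt.inv_tgt, Pt.inv_x, hα k, ← hα j] at this
      filter_upwards [c.eventually (α j).inv_left] with y hy
      simp only [Function.comp_apply]
      rw [hy]

theorem mkPt_isComp (z : ℝ) (α : ℕ → anClass.Pt) (hα : ∀ i, (α i).x = z) (i j : ℕ) :
    (ofPt ((α i).comp (α j).inv (by rw [Pt.inv_tgt, hα, hα]))).IsComp (ofPt (α j))
      (ofPt (α i)) := by
  refine isComp_of rfl (by rw [hα, hα]) ?_
  show (α i).f =ᶠ[𝓝 (α i).x] ((α i).f ∘ (α j).inv.f) ∘ (α j).f
  rw [hα i, ← hα j]
  filter_upwards [(α j).inv_left] with y hy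
  simp only [Function.comp_apply]
  rw [hy]

/-! ### Paths -/

theorem continuous_reweight {X : Type*} [TopologicalSpace X] (b : BGamma) (τ : X → ℕ →₀ ℝ)
    (h0 : ∀ x i, 0 ≤ τ x i) (h1 : ∀ x, (τ x).sum (fun _ r => r) = 1)
    (hs : ∀ x, (τ x).support ⊆ b.t.support) (hc : ∀ i, Continuous fun x => τ x i) :
    Continuous fun x => reweight b (τ x) (h0 x) (h1 x) (hs x) := by
  rw [continuous_iff]
  refine ⟨hc, fun k l W _ => ?_⟩
  by_cases hW : ∃ (hk : k ∈ b.t.support) (hl : l ∈ b.t.support), b.γ ⟨k, hk⟩ ⟨l, hl⟩ ∈ W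
  · obtain ⟨hk, hl, hW⟩ := hW
    have : ((fun x => reweight b (τ x) (h0 x) (h1 x) (hs x)) ⁻¹' transIn k l W) =
        ((fun x => τ x k) ⁻¹' {0}ᶜ) ∩ ((fun x => τ x l) ⁻¹' {0}ᶜ) := by
      ext x
      constructor
      · rintro ⟨hk', hl', -⟩
        exact ⟨Finsupp.mem_support_iff.mp hk', Finsupp.mem_support_iff.mp hl'⟩
      · rintro ⟨hk', hl'⟩
        exact ⟨Finsupp.mem_support_iff.mpr hk', Finsupp.mem_support_iff.mpr hl', hW⟩
    rw [this]
    exact (isOpen_compl_singleton.preimage (hc k)).inter (isOpen_compl_singleton.preimage (hc l))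
  · have : ((fun x => reweight b (τ x) (h0 x) (h1 x) (hs x)) ⁻¹' transIn k l W) = ∅ := by
      rw [eq_empty_iff_forall_notMem]
      rintro x ⟨hk', hl', hW'⟩
      exact hW ⟨hs x hk', hs x hl', hW'⟩
    rw [this]
    exact isOpen_empty

/-- The barycentric coordinates along a segment towards a vertex. -/
noncomputable def lineT (b : BGamma) (i : ℕ) (s : I) : ℕ →₀ ℝ :=
  (1 - (s : ℝ)) • b.t + (s : ℝ) • Finsupp.single i 1

theorem lineT_apply (b : BGamma) (i : ℕ) (s : I) (j : ℕ) :
    lineT b i s j = (1 - (s : ℝ)) * b.t j + (s : ℝ) * Finsupp.single i 1 j := by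
  rw [lineT, Finsupp.add_apply, Finsupp.smul_apply, Finsupp.smul_apply]
  rfl

theorem lineT_nonneg (b : BGamma) (i : ℕ) (s : I) (j : ℕ) : 0 ≤ lineT b i s j := by
  rw [lineT_apply]
  have h1 : 0 ≤ 1 - (s : ℝ) := by linarith [s.2.2]
  have h2 : (0 : ℝ) ≤ s := s.2.1
  exact add_nonneg (mul_nonneg h1 (b.nonneg j)) (mul_nonneg h2 (single_nonneg i j))

theorem lineT_sum (b : BGamma) (i : ℕ) (s : I) : (lineT b i s).sum (fun _ r => r) = 1 := by
  rw [lineT, Finsupp.sum_add_index' (fun _ => rfl) (fun _ _ _ => rfl),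
    Finsupp.sum_smul_index (fun _ => rfl), Finsupp.sum_smul_index (fun _ => rfl)]
  have e1 : b.t.sum (fun _ r => (1 - (s : ℝ)) * r) = (1 - (s : ℝ)) * 1 := by
    rw [← b.sum_eq_one, Finsupp.mul_sum]
  have e2 : (Finsupp.single i (1 : ℝ)).sum (fun _ r => (s : ℝ) * r) = s := by
    rw [Finsupp.sum_single_index (by simp)]; simp
  rw [e1, e2]
  ring

theorem lineT_support {b : BGamma} {i : ℕ} (hi : i ∈ b.t.support) (s : I) :
    (lineT b i s).support ⊆ b.t.support := by
  classical
  intro j hj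
  by_contra hcon
  rw [Finsupp.mem_support_iff] at hj
  apply hj
  rw [lineT_apply, Finsupp.notMem_support_iff.mp hcon, Finsupp.single_apply, if_neg]
  · simp
  · rintro rfl
    exact hcon hi

/-- The segment from a point to a vertex of its simplex. -/
noncomputable def line (b : BGamma) {i : ℕ} (hi : i ∈ b.t.support) :
    Path b (vert i (b.γ ⟨i, hi⟩ ⟨i, hi⟩).src) where
  toFun s := reweight b (lineT b i s) (lineT_nonneg b i s) (lineT_sum b i s) (lineT_support hi s)
  continuous_toFun := by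
    apply continuous_reweight
    intro j
    simp only [lineT_apply]
    fun_prop
  source' := by
    refine ext' ?_ ?_
    · show lineT b i 0 = b.t
      ext j; simp [lineT_apply]
    · intro k l hk hl hk' hl'
      rfl
  target' := by
    have e : lineT b i 1 = Finsupp.single i 1 := by
      ext j; simp [lineT_apply]
    have hs : (Finsupp.single i (1 : ℝ)).support ⊆ b.t.support := e ▸ lineT_support hi 1
    rw [← reweight_single hi hs]
    refine ext' e ?_
    intro k l hk hl hk' hl'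
    rfl

theorem line_mem_star (b : BGamma) {i : ℕ} (hi : i ∈ b.t.support) (s : I) :
    line b hi s ∈ star i := by
  show i ∈ (lineT b i s).support
  rw [Finsupp.mem_support_iff, lineT_apply]
  simp only [Finsupp.single_eq_same, mul_one]
  have h1 : 0 < b.t i := lt_of_le_of_ne (b.nonneg i) (Ne.symm (Finsupp.mem_support_iff.mp hi))
  have h2 : 0 ≤ 1 - (s : ℝ) := by linarith [s.2.2]
  have h3 : (0 : ℝ) ≤ s := s.2.1
  rcases eq_or_lt_of_le h3 with h | h
  · rw [← h]; simp [h1.ne']
  · have := mul_nonneg h2 h1.le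
    linarith

theorem continuous_ofPt_one : Continuous fun x : ℝ => ofPt (Pt.one x) := by
  rw [continuous_generateFrom_iff]
  rintro S ⟨U, f, hU, -, rfl⟩
  have : (fun x : ℝ => ofPt (Pt.one x)) ⁻¹'
      {γ : AnGerm | γ.src ∈ U ∧ γ.germ = (f : (𝓝 γ.src).Germ ℝ)} =
      U ∩ {x | (fun y : ℝ => y) =ᶠ[𝓝 x] f} := by
    ext x
    constructor
    · rintro ⟨h1, h2⟩
      exact ⟨h1, Filter.Germ.coe_eq.mp h2⟩
    · rintro ⟨h1, h2⟩
      exact ⟨h1, Filter.Germ.coe_eq.mpr h2⟩
  rw [this]
  exact hU.inter (isOpen_eqGerm _ _)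

theorem continuous_vert (i : ℕ) : Continuous (vert i) := by
  rw [continuous_iff]
  refine ⟨fun k => ?_, fun k l W hW => ?_⟩
  · exact continuous_const
  · by_cases hkl : k = i ∧ l = i
    · obtain ⟨rfl, rfl⟩ := hkl
      have : vert l ⁻¹' transIn l l W = (fun x : ℝ => ofPt (Pt.one x)) ⁻¹' W := by
        ext x
        constructor
        · rintro ⟨_, _, h⟩
          exact h
        · intro h
          exact ⟨mem_vert l x, mem_vert l x, h⟩
      rw [this]
      exact hW.preimage continuous_ofPt_one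
    · have : vert i ⁻¹' transIn k l W = ∅ := by
        rw [eq_empty_iff_forall_notMem]
        rintro x ⟨hk, hl, -⟩
        exact hkl ⟨mem_vert_iff.mp hk, mem_vert_iff.mp hl⟩
      rw [this]
      exact isOpen_empty

/-- Moving a vertex along the line. -/
noncomputable def move (i : ℕ) (x y : ℝ) : Path (vert i x) (vert i y) where
  toFun s := vert i ((1 - (s : ℝ)) * x + s * y)
  continuous_toFun := (continuous_vert i).comp (by fun_prop)
  source' := by simp
  target' := by simp

theorem move_mem_star (i : ℕ) (x y : ℝ) (s : I) : move i x y s ∈ star i := mem_vert i _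

/-! ### Edges -/

/-- The germs at the two ends of an edge. -/
noncomputable def edgeα (p : anClass.Pt) : ℕ → anClass.Pt := fun i =>
  if i = 0 then p else Pt.one p.x

theorem edgeα_x (p : anClass.Pt) (i : ℕ) : (edgeα p i).x = p.x := by
  unfold edgeα
  split_ifs <;> rfl

/-- The middle of the edge. -/
noncomputable def midT : ℕ →₀ ℝ := Finsupp.single 0 (1 / 2) + Finsupp.single 1 (1 / 2)

theorem midT_nonneg (i : ℕ) : 0 ≤ midT i := by
  classical
  simp only [midT, Finsupp.add_apply, Finsupp.single_apply]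
  split_ifs <;> norm_num

theorem midT_sum : midT.sum (fun _ r => r) = 1 := by
  rw [midT, Finsupp.sum_add_index' (fun _ => rfl) (fun _ _ _ => rfl),
    Finsupp.sum_single_index rfl, Finsupp.sum_single_index rfl]
  norm_num

/-- The midpoint of the edge defined by the germ `p`. -/
noncomputable def mid (p : anClass.Pt) : BGamma :=
  mkPt midT midT_nonneg midT_sum p.x (edgeα p) (edgeα_x p)

theorem mem_mid_zero (p : anClass.Pt) : 0 ∈ (mid p).t.support := by
  show 0 ∈ midT.support
  rw [Finsupp.mem_support_iff]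
  simp [midT]

theorem mem_mid_one (p : anClass.Pt) : 1 ∈ (mid p).t.support := by
  show 1 ∈ midT.support
  rw [Finsupp.mem_support_iff]
  simp [midT]

theorem mid_src_zero (p : anClass.Pt) :
    ((mid p).γ ⟨0, mem_mid_zero p⟩ ⟨0, mem_mid_zero p⟩).src = p.tgt := rfl

theorem mid_src_one (p : anClass.Pt) :
    ((mid p).γ ⟨1, mem_mid_one p⟩ ⟨1, mem_mid_one p⟩).src = p.x := rfl

/-- The edge from the vertex `0` at the target to the vertex `1` at the source. -/
noncomputable def half0 (p : anClass.Pt) : Path (mid p) (vert 0 p.tgt) := line _ (mem_mid_zero p)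

noncomputable def half1 (p : anClass.Pt) : Path (mid p) (vert 1 p.x) := line _ (mem_mid_one p)

/-- The loop at the vertex `0`, point `0`, defined by a germ. -/
noncomputable def loop (p : anClass.Pt) : Path (vert 0 0) (vert 0 0) :=
  (move 0 0 p.tgt).trans <| (half0 p).symm.trans <| (half1 p).trans <| (move 1 p.x 0).trans <|
    (half1 (Pt.one 0)).symm.trans (half0 (Pt.one 0))

section Mono

variable (C : LocalClass) (hC : ∀ (f : ℝ → ℝ) (x : ℝ), anClass.Adm f x → C.Adm f x)

theorem mono_trans {a b c : BGamma} {p : Path a b} {q : Path b c} {i j k : ℕ} {u v w : C.Grp}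
    (h1 : (cov C hC).monodromy (Path.Homotopic.Quotient.mk p) (felt C hC i a u) =
      felt C hC j b v)
    (h2 : (cov C hC).monodromy (Path.Homotopic.Quotient.mk q) (felt C hC j b v) =
      felt C hC k c w) :
    (cov C hC).monodromy (Path.Homotopic.Quotient.mk (p.trans q)) (felt C hC i a u) =
      felt C hC k c w := by
  rw [Path.Homotopic.Quotient.mk_trans, (cov C hC).monodromy_trans_apply, h1, h2]

theorem felt_change {i j : ℕ} {b : BGamma} (hi : i ∈ b.t.support) (hj : j ∈ b.t.support)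
    (v : C.Grp) : felt C hC i b v = felt C hC j b (κ C hC (b.γ ⟨j, hj⟩ ⟨i, hi⟩) * v) :=
  Subtype.ext (elt_change C hC hi hj v)

theorem κ_mid (p : anClass.Pt) :
    κ C hC ((mid p).γ ⟨0, mem_mid_zero p⟩ ⟨1, mem_mid_one p⟩) = κ C hC (ofPt p) ∧
    κ C hC ((mid p).γ ⟨1, mem_mid_one p⟩ ⟨0, mem_mid_zero p⟩) = (κ C hC (ofPt p))⁻¹ := by
  have h1 := κ_comp C hC (mkPt_isComp p.x (edgeα p) (edgeα_x p) 0 1)
  have h2 := κ_comp C hC (mkPt_isComp p.x (edgeα p) (edgeα_x p) 1 0)
  have e0 : edgeα p 0 = p := rfl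
  have e1 : edgeα p 1 = Pt.one p.x := rfl
  have eone : κ C hC (ofPt (edgeα p 1)) = 1 := by
    rw [e1, κ_ofPt]
    exact Pt.cl_one (C := C) p.x
  have h1' := h1.trans (by rw [eone, mul_one])
  have h2' := h2.symm.trans eone
  exact ⟨h1'.symm, eq_inv_of_mul_eq_one_left h2'⟩

/-- Monodromy along the loop of a germ. -/
theorem mono_loop (p : anClass.Pt) (v : C.Grp) :
    (cov C hC).monodromy (Path.Homotopic.Quotient.mk (loop p)) (felt C hC 0 (vert 0 0) v) =
      felt C hC 0 (vert 0 0) ((κ C hC (ofPt p))⁻¹ * v) := by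
  have s1 : (cov C hC).monodromy (Path.Homotopic.Quotient.mk (move 0 0 p.tgt))
      (felt C hC 0 (vert 0 0) v) = felt C hC 0 (vert 0 p.tgt) v :=
    mono_chart C hC _ (move_mem_star _ _ _) v
  have s2 : (cov C hC).monodromy (Path.Homotopic.Quotient.mk (half0 p).symm)
      (felt C hC 0 (vert 0 p.tgt) v) =
        felt C hC 1 (mid p) ((κ C hC (ofPt p))⁻¹ * v) := by
    rw [mono_chart C hC (i := 0) (half0 p).symm
      (fun s => line_mem_star _ (mem_mid_zero p) _) v,
      felt_change C hC (mem_mid_zero p) (mem_mid_one p) v, (κ_mid C hC p).2]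
  have s3 : (cov C hC).monodromy (Path.Homotopic.Quotient.mk (half1 p))
      (felt C hC 1 (mid p) ((κ C hC (ofPt p))⁻¹ * v)) =
        felt C hC 1 (vert 1 p.x) ((κ C hC (ofPt p))⁻¹ * v) :=
    mono_chart C hC _ (fun s => line_mem_star _ (mem_mid_one p) _) _
  have s4 : (cov C hC).monodromy (Path.Homotopic.Quotient.mk (move 1 p.x 0))
      (felt C hC 1 (vert 1 p.x) ((κ C hC (ofPt p))⁻¹ * v)) =
        felt C hC 1 (vert 1 0) ((κ C hC (ofPt p))⁻¹ * v) :=
    mono_chart C hC _ (move_mem_star _ _ _) _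
  have s5 : (cov C hC).monodromy (Path.Homotopic.Quotient.mk (half1 (Pt.one 0)).symm)
      (felt C hC 1 (vert 1 0) ((κ C hC (ofPt p))⁻¹ * v)) =
        felt C hC 0 (mid (Pt.one 0)) ((κ C hC (ofPt p))⁻¹ * v) := by
    have e : κ C hC (ofPt (Pt.one 0)) = 1 := by
      rw [κ_ofPt]; exact Pt.cl_one (C := C) 0
    have := mono_chart C hC (i := 1) (half1 (Pt.one 0)).symm
      (fun s => line_mem_star _ (mem_mid_one (Pt.one 0)) _) ((κ C hC (ofPt p))⁻¹ * v)
    refine this.trans ?_
    rw [felt_change C hC (mem_mid_one (Pt.one 0)) (mem_mid_zero (Pt.one 0)),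
      (κ_mid C hC (Pt.one 0)).1, e, one_mul]
  have s6 : (cov C hC).monodromy (Path.Homotopic.Quotient.mk (half0 (Pt.one 0)))
      (felt C hC 0 (mid (Pt.one 0)) ((κ C hC (ofPt p))⁻¹ * v)) =
        felt C hC 0 (vert 0 0) ((κ C hC (ofPt p))⁻¹ * v) :=
    mono_chart C hC (half0 (Pt.one 0)) (fun s => line_mem_star _ (mem_mid_zero (Pt.one 0)) _) _
  exact mono_trans C hC s1 (mono_trans C hC s2 (mono_trans C hC s3 (mono_trans C hC s4
    (mono_trans C hC s5 s6))))

end Mono

/-! ### Path connectedness -/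

theorem joined_vert (b : BGamma) : ∃ (i : ℕ) (x : ℝ), Joined b (vert i x) :=
  ⟨b.idx, _, ⟨line b b.idx_mem⟩⟩

/-- The middle of an edge between two vertices. -/
noncomputable def midIJ (i j : ℕ) (x : ℝ) : BGamma :=
  mkPt ((1 / 2 : ℝ) • Finsupp.single i (1 : ℝ) + (1 / 2 : ℝ) • Finsupp.single j (1 : ℝ))
    (fun k => by
      rw [Finsupp.add_apply, Finsupp.smul_apply, Finsupp.smul_apply]
      exact add_nonneg (mul_nonneg (by norm_num) (single_nonneg i k))
        (mul_nonneg (by norm_num) (single_nonneg j k)))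
    (by
      rw [Finsupp.sum_add_index' (fun _ => rfl) (fun _ _ _ => rfl),
        Finsupp.sum_smul_index (fun _ => rfl), Finsupp.sum_smul_index (fun _ => rfl),
        Finsupp.sum_single_index (by simp), Finsupp.sum_single_index (by simp)]
      norm_num)
    x (fun _ => Pt.one x) (fun _ => rfl)

theorem mem_midIJ_left (i j : ℕ) (x : ℝ) : i ∈ (midIJ i j x).t.support := by
  show i ∈ ((1 / 2 : ℝ) • Finsupp.single i (1 : ℝ) + (1 / 2 : ℝ) • Finsupp.single j (1 : ℝ)).support
  rw [Finsupp.mem_support_iff, Finsupp.add_apply, Finsupp.smul_apply, Finsupp.smul_apply,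
    Finsupp.single_eq_same]
  have := single_nonneg j i
  simp only [smul_eq_mul]
  linarith

theorem mem_midIJ_right (i j : ℕ) (x : ℝ) : j ∈ (midIJ i j x).t.support := by
  show j ∈ ((1 / 2 : ℝ) • Finsupp.single i (1 : ℝ) + (1 / 2 : ℝ) • Finsupp.single j (1 : ℝ)).support
  rw [Finsupp.mem_support_iff, Finsupp.add_apply, Finsupp.smul_apply, Finsupp.smul_apply,
    Finsupp.single_eq_same]
  have := single_nonneg i j
  simp only [smul_eq_mul]
  linarith

theorem joined_vert_vert (i j : ℕ) (x y : ℝ) : Joined (vert i x) (vert j y) := by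
  have h1 : Joined (midIJ i j x) (vert i x) := ⟨line _ (mem_midIJ_left i j x)⟩
  have h2 : Joined (midIJ i j x) (vert j x) := ⟨line _ (mem_midIJ_right i j x)⟩
  exact (h1.symm.trans h2).trans ⟨move j x y⟩

/-- The classifying space is path connected. -/
instance : PathConnectedSpace BGamma where
  nonempty := ⟨vert 0 0⟩
  joined a b := by
    obtain ⟨i, x, ha⟩ := joined_vert a
    obtain ⟨j, y, hb⟩ := joined_vert b
    exact (ha.trans (joined_vert_vert i j x y)).trans hb.symm

/-! ### The fundamental group is not simple -/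

theorem hid : ∀ (f : ℝ → ℝ) (x : ℝ), anClass.Adm f x → anClass.Adm f x := fun _ _ h => h

theorem hpu : ∀ (f : ℝ → ℝ) (x : ℝ), anClass.Adm f x → puClass.Adm f x :=
  fun _ _ h => puAdm_of_anAdm h

/-- The kernel of the monodromy of the covering attached to the larger class. -/
noncomputable def N₀ : Subgroup (FundamentalGroup BGamma (vert 0 0)) :=
  ((cov puClass hpu).monodromyPerm (vert 0 0)).ker

theorem N₀_ne_top : N₀ ≠ ⊤ := by
  intro h
  set p : anClass.Pt := ⟨0, fun y => y + 1, anAdm_add_one 0⟩ with hp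
  let P : FundamentalGroup BGamma (vert 0 0) := Path.Homotopic.Quotient.mk (loop p)
  have hmem : P ∈ N₀ := by
    rw [h]; trivial
  have h1 := congrArg (fun τ : Equiv.Perm _ => τ (felt puClass hpu 0 (vert 0 0) 1))
    (MonoidHom.mem_ker.mp hmem)
  have h2 : (cov puClass hpu).monodromy (Path.Homotopic.Quotient.mk (loop p))
      (felt puClass hpu 0 (vert 0 0) 1) = felt puClass hpu 0 (vert 0 0) 1 := h1
  rw [mono_loop] at h2
  have h3 := elt_injective puClass hpu (mem_vert 0 0) (congrArg Subtype.val h2)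
  rw [mul_one, inv_eq_one, κ_ofPt] at h3
  have h4 : (lift puClass hpu p).cl = (Pt.one (C := puClass) 0).cl := by
    rw [h3, Pt.cl_one]
  exact not_same_add_one ((Pt.cl_eq_iff _ _).mp h4)

theorem N₀_ne_bot : N₀ ≠ ⊥ := by
  intro h
  set p : anClass.Pt := ⟨1, cube, anAdm_cube one_ne_zero⟩ with hp
  set q : anClass.Pt := ⟨-1, cube, anAdm_cube (neg_ne_zero.mpr one_ne_zero)⟩ with hq
  let P : FundamentalGroup BGamma (vert 0 0) := Path.Homotopic.Quotient.mk (loop p)
  let Q : FundamentalGroup BGamma (vert 0 0) := Path.Homotopic.Quotient.mk (loop q)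
  have hκ : κ puClass hpu (ofPt p) = κ puClass hpu (ofPt q) := by
    rw [κ_ofPt, κ_ofPt, Pt.cl_eq_iff]
    exact same_cube
  have hperm : (cov puClass hpu).monodromyPerm (vert 0 0) P =
      (cov puClass hpu).monodromyPerm (vert 0 0) Q := by
    apply Equiv.ext
    intro e
    obtain ⟨v, hv⟩ := exists_elt puClass hpu (mem_vert 0 0) e
    have he : e = felt puClass hpu 0 (vert 0 0) v := Subtype.ext hv
    show (cov puClass hpu).monodromy (Path.Homotopic.Quotient.mk (loop p)) e =
      (cov puClass hpu).monodromy (Path.Homotopic.Quotient.mk (loop q)) e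
    rw [he, mono_loop, mono_loop, hκ]
  have hmem : P * Q⁻¹ ∈ N₀ := by
    show (cov puClass hpu).monodromyPerm (vert 0 0) (P * Q⁻¹) = 1
    rw [map_mul, hperm, ← map_mul, mul_inv_cancel, map_one]
  rw [h, Subgroup.mem_bot, mul_inv_eq_one] at hmem
  have h1 : (cov anClass hid).monodromy (Path.Homotopic.Quotient.mk (loop p))
      (felt anClass hid 0 (vert 0 0) 1) =
      (cov anClass hid).monodromy (Path.Homotopic.Quotient.mk (loop q))
      (felt anClass hid 0 (vert 0 0) 1) := by
    have : (Path.Homotopic.Quotient.mk (loop p) : Path.Homotopic.Quotient _ _) =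
      Path.Homotopic.Quotient.mk (loop q) := hmem
    rw [this]
  rw [mono_loop, mono_loop] at h1
  have h3 := elt_injective anClass hid (mem_vert 0 0) (congrArg Subtype.val h1)
  rw [mul_one, mul_one, inv_inj, κ_ofPt, κ_ofPt] at h3
  exact not_same_cube ((Pt.cl_eq_iff _ _).mp h3)

theorem main (b : BGamma) :
    ∃ N : Subgroup (FundamentalGroup BGamma b), N.Normal ∧ N ≠ ⊥ ∧ N ≠ ⊤ := by
  let e : FundamentalGroup BGamma (vert 0 0) ≃* FundamentalGroup BGamma b :=
    FundamentalGroup.fundamentalGroupMulEquivOfPathConnected _ _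
  refine ⟨N₀.map e.toMonoidHom, ?_, ?_, ?_⟩
  · exact Subgroup.Normal.map (MonoidHom.normal_ker _) _ e.surjective
  · intro h
    apply N₀_ne_bot
    rw [eq_bot_iff] at h ⊢
    intro x hx
    have := h (Subgroup.mem_map_of_mem e.toMonoidHom hx)
    rw [Subgroup.mem_bot] at this ⊢
    exact e.injective (this.trans (map_one e).symm)
  · intro h
    apply N₀_ne_top
    rw [eq_top_iff]
    intro x _
    have : e.toMonoidHom x ∈ N₀.map e.toMonoidHom := by rw [h]; trivial
    obtain ⟨y, hy, hxy⟩ := this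
    have : y = x := e.injective hxy
    rwa [← this]

end BGamma

end Pool.Agent.Lib.MP_58c1c9_gt
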