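import Mathlib.GroupTheory.Congruence.Basic
import Mathlib.Algebra.FreeMonoid.Basic
import Mathlib.Algebra.Group.Units.Basic
import Mathlib.Order.Interval.Set.OrdConnected
import Mathlib.Data.Real.Basic
import Mathlib.Tactic.Linarith

set_option autoImplicit false

/-!
# Interval prees embed in their universal group

A partial group structure whose elements carry an interval (their range), such that the product
`a * b` is defined exactly when the intervals of `a⁻¹` and `b` meet, embeds in its universal
group.  This is an instance of the classical theorem of Baer on prees, the point being that the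
intersection graph of a family of intervals is chordal.
-/

namespace Pool.Agent.Lib.MP_58c1c9_gt

/-- A partial group in which every element `a` has a range `I a`, an interval of the line; the
relation `T a b c` says that the product `a b` is defined and equal to `c`. -/
structure IntervalPree (P : Type) where
  one : P
  inv : P → P
  T : P → P → P → Prop
  I : P → Set ℝ
  ordConn : ∀ a, (I a).OrdConnected
  T_fun : ∀ {a b c c'}, T a b c → T a b c' → c = c'
  T_def : ∀ {a b}, (I (inv a) ∩ I b).Nonempty → ∃ c, T a b c
  T_meet : ∀ {a b c}, T a b c → (I (inv a) ∩ I b).Nonempty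
  T_tri : ∀ {a b c u v w y}, y ∈ I a → y ∈ I b → y ∈ I c →
    T (inv a) b u → T (inv b) c v → T (inv a) c w → T u v w
  inv_inv : ∀ a, inv (inv a) = a
  one_T : ∀ a, T one a a
  T_one : ∀ a, T a one a
  inv_T : ∀ a, T (inv a) a one
  rot : ∀ {a b c}, T a b c → T (inv a) c b
  rot' : ∀ {a b c}, T a b c → T c (inv b) a

namespace IntervalPree

variable {P : Type} (X : IntervalPree P)

theorem T_inv (a : P) : X.T a (X.inv a) X.one := by
  have := X.inv_T (X.inv a)
  rwa [X.inv_inv] at this

/-- `Eval W z`: the word `W` has a bracketing all of whose partial products are defined, with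
value `z`. -/
inductive Eval : List P → P → Prop
  | leaf (a : P) : Eval [a] a
  | node {W₁ W₂ : List P} {x y z : P} : Eval W₁ x → Eval W₂ y → X.T x y z → Eval (W₁ ++ W₂) z

theorem Eval.ne_nil {W : List P} {z : P} (h : X.Eval W z) : W ≠ [] := by
  induction h with
  | leaf a => simp
  | node h₁ h₂ _ ih₁ ih₂ => simp [ih₁]

theorem eval_singleton {W : List P} {z : P} (h : X.Eval W z) : ∀ a, W = [a] → z = a := by
  induction h with
  | leaf a => intro b hb; simpa using hb
  | node h₁ h₂ hT ih₁ ih₂ =>
    intro a ha
    have n₁ := Eval.ne_nil X h₁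
    have n₂ := Eval.ne_nil X h₂
    exfalso
    have hl := congrArg List.length ha
    simp only [List.length_append, List.length_singleton] at hl
    have l₁ := List.length_pos_iff.mpr n₁
    have l₂ := List.length_pos_iff.mpr n₂
    omega

/-- Substitution of an evaluable word for a letter. -/
theorem Eval.subst {W : List P} {z : P} (h : X.Eval W z) :
    ∀ (L R M : List P) (a : P), W = L ++ a :: R → X.Eval M a → X.Eval (L ++ M ++ R) z := by
  induction h with
  | leaf b =>
    intro L R M a hW hM
    rcases L with _ | ⟨l, L⟩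
    · simp only [List.nil_append, List.cons.injEq] at hW
      obtain ⟨rfl, rfl⟩ := hW
      simpa using hM
    · simp at hW
  | @node W₁ W₂ x y z h₁ h₂ hT ih₁ ih₂ =>
    intro L R M a hW hM
    rcases List.append_eq_append_iff.mp hW with ⟨L', hL, hR⟩ | ⟨L', hL, hR⟩
    · -- `L = W₁ ++ L'`, `W₂ = L' ++ a :: R`
      have := ih₂ L' R M a hR hM
      rw [hL]
      simpa [List.append_assoc] using Eval.node h₁ this hT
    · rcases L' with _ | ⟨l, L'⟩
      · simp only [List.append_nil, List.nil_append] at hL hR
        have := ih₂ [] R M a hR.symm hM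
        rw [← hL]
        simpa [List.append_assoc] using Eval.node h₁ this hT
      · simp only [List.cons_append, List.cons.injEq] at hR
        obtain ⟨rfl, hR⟩ := hR
        have := ih₁ L L' M a hL hM
        rw [hR]
        simpa [List.append_assoc] using Eval.node this h₂ hT

/-- The concatenation of the words `w m, …, w (m + n - 1)`. -/
def cat (w : ℕ → List P) : ℕ → ℕ → List P
  | _, 0 => []
  | m, n + 1 => w m ++ cat w (m + 1) n

theorem cat_add (w : ℕ → List P) (m a b : ℕ) :
    cat w m (a + b) = cat w m a ++ cat w (m + a) b := by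
  induction a generalizing m with
  | zero => simp [cat]
  | succ a ih =>
    rw [show a + 1 + b = (a + b) + 1 by omega]
    simp only [cat, List.append_assoc]
    rw [ih, show m + 1 + a = m + (a + 1) by omega]

theorem cat_congr {w w' : ℕ → List P} {m m' n : ℕ} (h : ∀ i < n, w (m + i) = w' (m' + i)) :
    cat w m n = cat w' m' n := by
  induction n generalizing m m' with
  | zero => rfl
  | succ n ih =>
    simp only [cat]
    rw [ih (m := m + 1) (m' := m' + 1)]
    · congr 1
      simpa using h 0 (by omega)
    · intro i hi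
      have := h (i + 1) (by omega)
      rw [show m + 1 + i = m + (i + 1) by omega, show m' + 1 + i = m' + (i + 1) by omega]
      exact this

/-- `g m, …, g (m+n)` is a sequence of elements whose successive quotients are the values of the
words `w m, …, w (m+n-1)`. -/
def IsChain (g : ℕ → P) (w : ℕ → List P) (m n : ℕ) : Prop :=
  ∀ i, m ≤ i → i < m + n → ∃ u, X.Eval (w i) u ∧ X.T (X.inv (g i)) (g (i + 1)) u

variable {X}

theorem side_lt {g : ℕ → P} {w : ℕ → List P} {m n : ℕ} (hc : X.IsChain g w m n) {y : ℝ}
    (hy : ∀ j, m < j → j < m + n → y ∉ X.I (g j)) (h1 : ∀ x ∈ X.I (g (m + 1)), x < y) :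
    ∀ j, m + 1 + j < m + n → ∀ x ∈ X.I (g (m + 1 + j)), x < y := by
  intro j
  induction j with
  | zero => intro _; simpa using h1
  | succ j ih =>
    intro hj x hx
    have ih' := ih (by omega)
    obtain ⟨u, -, hu⟩ := hc (m + 1 + j) (by omega) (by omega)
    obtain ⟨p, hp1, hp2⟩ := X.T_meet hu
    rw [X.inv_inv] at hp1
    have hpy := ih' p hp1
    by_contra hxy
    push Not at hxy
    exact hy (m + 1 + j + 1) (by omega) (by omega)
      ((X.ordConn _).out hp2 hx ⟨hpy.le, hxy⟩)

theorem side_gt {g : ℕ → P} {w : ℕ → List P} {m n : ℕ} (hc : X.IsChain g w m n) {y : ℝ}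
    (hy : ∀ j, m < j → j < m + n → y ∉ X.I (g j)) (h1 : ∀ x ∈ X.I (g (m + 1)), y < x) :
    ∀ j, m + 1 + j < m + n → ∀ x ∈ X.I (g (m + 1 + j)), y < x := by
  intro j
  induction j with
  | zero => intro _; simpa using h1
  | succ j ih =>
    intro hj x hx
    have ih' := ih (by omega)
    obtain ⟨u, -, hu⟩ := hc (m + 1 + j) (by omega) (by omega)
    obtain ⟨p, hp1, hp2⟩ := X.T_meet hu
    rw [X.inv_inv] at hp1
    have hpy := ih' p hp1
    by_contra hxy
    push Not at hxy
    exact hy (m + 1 + j + 1) (by omega) (by omega)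
      ((X.ordConn _).out hx hp2 ⟨hxy, hpy.le⟩)

/-- **Fan lemma.** -/
theorem fan : ∀ (n : ℕ) (g : ℕ → P) (w : ℕ → List P) (m : ℕ), X.IsChain g w m (n + 1) →
    ∀ (y : ℝ), y ∈ X.I (g m) → y ∈ X.I (g (m + (n + 1))) →
    ∀ z, X.T (X.inv (g m)) (g (m + (n + 1))) z → X.Eval (cat w m (n + 1)) z := by
  intro n
  induction n using Nat.strong_induction_on with
  | _ n ih =>
  intro g w m hc y hy0 hy1 z hz
  -- a splitting principle
  have split : ∀ (j : ℕ) (y' : ℝ), m < j → j < m + (n + 1) → y' ∈ X.I (g m) → y' ∈ X.I (g j) →
      y' ∈ X.I (g (m + (n + 1))) → X.Eval (cat w m (n + 1)) z := by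
    intro j y' h1 h2 e0 e1 e2
    obtain ⟨a, rfl⟩ : ∃ a, j = m + (a + 1) := ⟨j - m - 1, by omega⟩
    obtain ⟨b, rfl⟩ : ∃ b, n = (a + 1) + b := ⟨n - (a + 1), by omega⟩
    obtain ⟨u, hu⟩ := X.T_def (a := X.inv (g m)) (b := g (m + (a + 1)))
      ⟨y', by rw [X.inv_inv]; exact e0, e1⟩
    obtain ⟨v, hv⟩ := X.T_def (a := X.inv (g (m + (a + 1)))) (b := g (m + (a + 1 + b + 1)))
      ⟨y', by rw [X.inv_inv]; exact e1, e2⟩
    have hE1 : X.Eval (cat w m (a + 1)) u :=
      ih a (by omega) g w m (fun i hi hi' => hc i hi (by omega)) y' e0 e1 u hu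
    have hE2 : X.Eval (cat w (m + (a + 1)) (b + 1)) v := by
      refine ih b (by omega) g w (m + (a + 1)) (fun i hi hi' => hc i (by omega) (by omega)) y' e1
        ?_ v ?_
      · rw [show m + (a + 1) + (b + 1) = m + (a + 1 + b + 1) by omega]; exact e2
      · rw [show m + (a + 1) + (b + 1) = m + (a + 1 + b + 1) by omega]; exact hv
    rw [show a + 1 + b + 1 = (a + 1) + (b + 1) by omega, cat_add]
    exact Eval.node hE1 hE2 (X.T_tri e0 e1 e2 hu hv hz)
  rcases Nat.eq_zero_or_pos n with rfl | hn
  · obtain ⟨u, hu1, hu2⟩ := hc m le_rfl (by omega)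
    have : u = z := X.T_fun hu2 hz
    subst this
    simpa [cat] using hu1
  by_cases hex : ∃ j, m < j ∧ j < m + (n + 1) ∧ y ∈ X.I (g j)
  · obtain ⟨j, h1, h2, h3⟩ := hex
    exact split j y h1 h2 hy0 h3 hy1
  push Not at hex
  -- a point common to `g m` and `g (m+1)`
  obtain ⟨u0, -, hu0⟩ := hc m le_rfl (by omega)
  obtain ⟨a, ha0, ha1⟩ := X.T_meet hu0
  rw [X.inv_inv] at ha0
  -- a point common to `g (m+n)` and `g (m+n+1)`
  obtain ⟨u1, -, hu1⟩ := hc (m + n) (by omega) (by omega)
  obtain ⟨b, hb0, hb1⟩ := X.T_meet hu1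
  rw [X.inv_inv] at hb0
  have hya : a ≠ y := fun h => hex (m + 1) (by omega) (by omega) (h ▸ ha1)
  have e1 : m + n + 1 = m + (n + 1) := by omega
  rcases lt_or_gt_of_ne hya with hlt | hgt
  · -- everything is on the left of `y`
    have hs : ∀ x ∈ X.I (g (m + 1)), x < y := by
      intro x hx
      by_contra hxy
      push Not at hxy
      exact hex (m + 1) (by omega) (by omega) ((X.ordConn _).out ha1 hx ⟨hlt.le, hxy⟩)
    have hby : b < y := by
      have := side_lt (n := n + 1) hc hex hs (n - 1) (by omega) b
      rw [show m + 1 + (n - 1) = m + n by omega] at this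
      exact this hb0
    rcases le_total a b with hab | hab
    · refine split (m + n) b (by omega) (by omega) ?_ hb0 (e1 ▸ hb1)
      exact (X.ordConn _).out ha0 hy0 ⟨hab, hby.le⟩
    · refine split (m + 1) a (by omega) (by omega) ha0 ha1 ?_
      exact (X.ordConn _).out (e1 ▸ hb1) hy1 ⟨hab, hlt.le⟩
  · have hs : ∀ x ∈ X.I (g (m + 1)), y < x := by
      intro x hx
      by_contra hxy
      push Not at hxy
      exact hex (m + 1) (by omega) (by omega) ((X.ordConn _).out hx ha1 ⟨hxy, hgt.le⟩)
    have hby : y < b := by
      have := side_gt (n := n + 1) hc hex hs (n - 1) (by omega) b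
      rw [show m + 1 + (n - 1) = m + n by omega] at this
      exact this hb0
    rcases le_total a b with hab | hab
    · refine split (m + 1) a (by omega) (by omega) ha0 ha1 ?_
      exact (X.ordConn _).out hy1 (e1 ▸ hb1) ⟨hgt.le, hab⟩
    · refine split (m + n) b (by omega) (by omega) ?_ hb0 (e1 ▸ hb1)
      exact (X.ordConn _).out hy0 ha0 ⟨hby.le, hab⟩

variable (X)

/-- `LC W g h`: the word `W` is the concatenation of the words of a chain from `g` to `h`. -/
def LC (W : List P) (g h : P) : Prop :=
  ∃ (n : ℕ) (G : ℕ → P) (w : ℕ → List P), X.IsChain G w 0 n ∧ G 0 = g ∧ G n = h ∧ cat w 0 n = W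

variable {X}

theorem LC.refl (g : P) : X.LC [] g g :=
  ⟨0, fun _ => g, fun _ => [], fun i _ hi => by omega, rfl, rfl, rfl⟩

theorem LC.single {W : List P} {g h u : P} (hE : X.Eval W u) (hT : X.T (X.inv g) h u) :
    X.LC W g h := by
  refine ⟨1, fun i => if i = 0 then g else h, fun _ => W, ?_, rfl, rfl, by simp [cat]⟩
  intro i _ hi
  have : i = 0 := by omega
  subst this
  exact ⟨u, hE, by simpa using hT⟩

theorem LC.trans {W W' : List P} {g h k : P} (h₁ : X.LC W g h) (h₂ : X.LC W' h k) :
    X.LC (W ++ W') g k := by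
  obtain ⟨n, G, w, hc, hg, hh, hW⟩ := h₁
  obtain ⟨n', G', w', hc', hg', hh', hW'⟩ := h₂
  refine ⟨n + n', fun i => if i < n then G i else G' (i - n),
    fun i => if i < n then w i else w' (i - n), ?_, ?_, ?_, ?_⟩
  · intro i _ hi
    by_cases h : i < n
    · obtain ⟨u, hu, hT⟩ := hc i (by omega) (by omega)
      refine ⟨u, by simpa [h] using hu, ?_⟩
      simp only [h, if_true]
      by_cases h' : i + 1 < n
      · simpa [h'] using hT
      · have e : i + 1 = n := by omega
        rw [if_neg h', e, Nat.sub_self, hg', ← hh, ← e]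
        exact hT
    · obtain ⟨u, hu, hT⟩ := hc' (i - n) (by omega) (by omega)
      refine ⟨u, by simpa [h] using hu, ?_⟩
      have h' : ¬ i + 1 < n := by omega
      simp only [h, h', if_false]
      rw [show i + 1 - n = i - n + 1 by omega]; exact hT
  · by_cases h : 0 < n
    · simp [h, hg]
    · have : n = 0 := by omega
      subst this
      simp [hg', ← hh, hg]
  · have h : ¬ n + n' < n := by omega
    simp [hh']
  · rw [cat_add]
    congr 1
    · rw [← hW]
      exact cat_congr fun i hi => by simp [hi]
    · rw [← hW']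
      exact cat_congr fun i hi => by simp

/-- Spine on the left of a vertex. -/
theorem Eval.spine_left {W : List P} {x : P} (h : X.Eval W x) :
    ∀ (L : List P) (a : P), W = L ++ [a] → X.LC L (X.inv x) (X.inv a) := by
  induction h with
  | leaf b =>
    intro L a hW
    rcases L with _ | ⟨l, L⟩
    · simp only [List.nil_append, List.cons.injEq, and_true] at hW
      subst hW
      exact LC.refl _
    · simp at hW
  | @node W₁ W₂ x y z h₁ h₂ hT ih₁ ih₂ =>
    intro L a hW
    have n₂ := Eval.ne_nil X h₂
    obtain ⟨L', b, rfl⟩ : ∃ L' b, W₂ = L' ++ [b] := by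
      rcases List.eq_nil_or_concat W₂ with h | ⟨L', b, h⟩
      · exact absurd h n₂
      · exact ⟨L', b, by simpa using h⟩
    rw [← List.append_assoc] at hW
    obtain ⟨h3, h4⟩ := List.append_inj' hW rfl
    simp only [List.cons.injEq, and_true] at h4
    subst h4
    rw [← h3]
    refine LC.trans (LC.single h₁ ?_) (ih₂ L' b rfl)
    rw [X.inv_inv]
    exact X.rot' hT

/-- Spine on the right of a vertex. -/
theorem Eval.spine_right {W : List P} {x : P} (h : X.Eval W x) :
    ∀ (R : List P) (b : P), W = b :: R → X.LC R b x := by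
  induction h with
  | leaf a =>
    intro R b hW
    simp only [List.cons.injEq] at hW
    obtain ⟨rfl, rfl⟩ := hW
    exact LC.refl _
  | @node W₁ W₂ x y z h₁ h₂ hT ih₁ ih₂ =>
    intro R b hW
    have n₁ := Eval.ne_nil X h₁
    rcases W₁ with _ | ⟨c, R'⟩
    · exact absurd rfl n₁
    simp only [List.cons_append, List.cons.injEq] at hW
    obtain ⟨rfl, rfl⟩ := hW
    refine LC.trans (ih₁ R' c rfl) (LC.single h₂ ?_)
    exact X.rot hT

theorem LC.eval {W : List P} {g h z : P} (hLC : X.LC W g h) (hW : W ≠ [])
    (hT : X.T (X.inv g) h z) : X.Eval W z := by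
  obtain ⟨n, G, w, hc, hg, hh, hw⟩ := hLC
  rcases n with _ | n
  · exact absurd hw.symm (by simpa [cat] using hW)
  obtain ⟨y, hy1, hy2⟩ := X.T_meet hT
  rw [X.inv_inv] at hy1
  rw [← hw]
  exact fan n G w 0 hc y (by rw [hg]; exact hy1) (by rw [Nat.zero_add, hh]; exact hy2) z
    (by rw [hg, Nat.zero_add, hh]; exact hT)

/-- **Key lemma**: contracting a defined product does not change the values of a word. -/
theorem Eval.contract {W : List P} {z : P} (h : X.Eval W z) :
    ∀ (L R : List P) (a b c : P), W = L ++ a :: b :: R → X.T a b c → X.Eval (L ++ c :: R) z := by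
  induction h with
  | leaf b =>
    intro L R a b' c hW hT
    rcases L with _ | ⟨l, L⟩ <;> simp at hW
  | @node W₁ W₂ x y z h₁ h₂ hT ih₁ ih₂ =>
    intro L R a b c hW habc
    rcases List.append_eq_append_iff.mp hW with ⟨L', hL, hR⟩ | ⟨L', hL, hR⟩
    · -- `L = W₁ ++ L'`, `W₂ = L' ++ a :: b :: R`
      rw [hL, List.append_assoc]
      exact Eval.node h₁ (ih₂ L' R a b c hR habc) hT
    · -- `W₁ = L ++ L'`, `a :: b :: R = L' ++ W₂`
      rcases L' with _ | ⟨l, L'⟩
      · simp only [List.append_nil, List.nil_append] at hL hR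
        rw [← hL]
        exact Eval.node h₁ (ih₂ [] R a b c hR.symm habc) hT
      · simp only [List.cons_append, List.cons.injEq] at hR
        obtain ⟨rfl, hR⟩ := hR
        rcases L' with _ | ⟨l, L'⟩
        · -- the product is between the two halves
          simp only [List.nil_append] at hR
          have s₁ := h₁.spine_left L a hL
          have s₂ := h₂.spine_right R b hR.symm
          have s : X.LC (L ++ ([c] ++ R)) (X.inv x) y := by
            refine LC.trans s₁ (LC.trans (LC.single (Eval.leaf c) ?_) s₂)
            rw [X.inv_inv]; exact habc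
          have := s.eval (z := z) (by simp) (by rw [X.inv_inv]; exact hT)
          simpa using this
        · simp only [List.cons_append, List.cons.injEq] at hR
          obtain ⟨rfl, rfl⟩ := hR
          have := ih₁ L L' a b c hL habc
          have := Eval.node this h₂ hT
          simpa [List.append_assoc] using this

theorem Eval.expand {L R : List P} {a b c z : P} (h : X.Eval (L ++ c :: R) z) (hT : X.T a b c) :
    X.Eval (L ++ a :: b :: R) z := by
  have := Eval.subst X h L R [a, b] c rfl (Eval.node (Eval.leaf a) (Eval.leaf b) hT)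
  simpa [List.append_assoc] using this

variable (X)

/-- The values of a word; the empty word has the value one. -/
def vals (W : List P) : Set P := {z | (W = [] ∧ z = X.one) ∨ X.Eval W z}

theorem vals_contract (L R : List P) {a b c : P} (hT : X.T a b c) :
    X.vals (L ++ a :: b :: R) = X.vals (L ++ c :: R) := by
  ext z
  constructor
  · rintro (⟨h, -⟩ | h)
    · simp at h
    · exact Or.inr (h.contract L R a b c rfl hT)
  · rintro (⟨h, -⟩ | h)
    · simp at h
    · exact Or.inr (h.expand hT)

theorem vals_one (L R : List P) : X.vals (L ++ X.one :: R) = X.vals (L ++ R) := by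
  rcases R with _ | ⟨b, R⟩
  · rcases List.eq_nil_or_concat L with rfl | ⟨L', a, rfl⟩
    · ext z
      constructor
      · rintro (⟨h, -⟩ | h)
        · simp at h
        · exact Or.inl ⟨rfl, eval_singleton X h _ rfl⟩
      · rintro (⟨-, rfl⟩ | h)
        · exact Or.inr (Eval.leaf _)
        · exact absurd rfl (Eval.ne_nil X h)
    · have := X.vals_contract L' [] (X.T_one a)
      simpa [List.append_assoc] using this
  · exact X.vals_contract L R (X.one_T b)

/-- The congruence on the free monoid defining the universal group. -/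
inductive Rel : FreeMonoid P → FreeMonoid P → Prop
  | mul {a b c : P} : X.T a b c → Rel (FreeMonoid.of a * FreeMonoid.of b) (FreeMonoid.of c)
  | one : Rel (FreeMonoid.of X.one) 1

/-- Two words are equivalent if they have the same values in every context. -/
def ctxCon : Con (FreeMonoid P) where
  r W W' := ∀ L R : FreeMonoid P,
    X.vals (FreeMonoid.toList (L * W * R)) = X.vals (FreeMonoid.toList (L * W' * R))
  iseqv := ⟨fun _ _ _ => rfl, fun h L R => (h L R).symm, fun h h' L R => (h L R).trans (h' L R)⟩
  mul' := by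
    intro w x y z h h' L R
    have e1 := h L (y * R)
    have e2 := h' (L * x) R
    rw [show L * (w * y) * R = L * w * (y * R) by simp only [mul_assoc],
      show L * (x * z) * R = L * x * z * R by simp only [mul_assoc], e1, ← e2]
    simp only [mul_assoc]

theorem conGen_le : conGen X.Rel ≤ X.ctxCon := by
  rw [Con.conGen_le]
  intro W W' h L R
  cases h with
  | mul hT =>
    have := X.vals_contract (FreeMonoid.toList L) (FreeMonoid.toList R) hT
    simpa [FreeMonoid.toList_mul, List.append_assoc] using this
  | one =>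
    have := X.vals_one (FreeMonoid.toList L) (FreeMonoid.toList R)
    simpa [FreeMonoid.toList_mul, List.append_assoc] using this

/-- The universal monoid of the pree. -/
abbrev UMon : Type := (conGen X.Rel).Quotient

/-- The universal group of the pree: the units of its universal monoid. -/
abbrev UGrp : Type := (X.UMon)ˣ

/-- The class of a letter in the universal monoid. -/
def cls (a : P) : X.UMon := (conGen X.Rel).mk' (FreeMonoid.of a)

theorem cls_mul {a b c : P} (h : X.T a b c) : X.cls a * X.cls b = X.cls c := by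
  rw [cls, cls, cls, ← map_mul]
  exact (Con.eq _).mpr (ConGen.Rel.of _ _ (Rel.mul h))

theorem cls_one : X.cls X.one = 1 := by
  rw [cls, ← map_one (conGen X.Rel).mk']
  exact (Con.eq _).mpr (ConGen.Rel.of _ _ Rel.one)

theorem cls_injective : Function.Injective X.cls := by
  intro a b h
  have h' : X.ctxCon (FreeMonoid.of a) (FreeMonoid.of b) := X.conGen_le ((Con.eq _).mp h)
  have := h' 1 1
  simp only [one_mul, mul_one, FreeMonoid.toList_of] at this
  have ha : a ∈ X.vals [a] := Or.inr (Eval.leaf a)
  rw [this] at ha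
  rcases ha with ⟨h, -⟩ | h
  · simp at h
  · exact eval_singleton X h b rfl

/-- The element of the universal group attached to an element of the pree. -/
def toGrp (a : P) : X.UGrp where
  val := X.cls a
  inv := X.cls (X.inv a)
  val_inv := by rw [X.cls_mul (X.T_inv a), cls_one]
  inv_val := by rw [X.cls_mul (X.inv_T a), cls_one]

theorem toGrp_mul {a b c : P} (h : X.T a b c) : X.toGrp a * X.toGrp b = X.toGrp c :=
  Units.ext (X.cls_mul h)

theorem toGrp_one : X.toGrp X.one = 1 := Units.ext X.cls_one

theorem toGrp_injective : Function.Injective X.toGrp := fun _ _ h =>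
  X.cls_injective (congrArg Units.val h)

end IntervalPree

end Pool.Agent.Lib.MP_58c1c9_gt
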